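import Mathlib

set_option autoImplicit false
set_option linter.unusedSectionVars false

namespace Pool.Agent.H567.Nec

open Finset

/-- rows of the block `b` -/
def rowB (m t : ℕ) (b : Fin (m / t)) (s : Fin t) : Fin m :=
  ⟨b.1 * t + s.1, by
    have h1 : (b.1 + 1) * t ≤ (m / t) * t := Nat.mul_le_mul_right _ (by omega)
    have h2 : (m / t) * t ≤ m := Nat.div_mul_le_self m t
    have h3 := s.2
    nlinarith⟩

/-- columns of the block `b` on the cyclic diagonal `k` -/
def colB (m t : ℕ) [NeZero m] (k : Fin m) (b : Fin (m / t)) (s : Fin t) : Fin m :=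
  rowB m t b s + k

lemma rowB_injective (m t : ℕ) (b : Fin (m / t)) : Function.Injective (rowB m t b) := by
  intro s s' h
  have := congrArg Fin.val h
  simp only [rowB] at this
  exact Fin.ext (by omega)

lemma colB_injective (m t : ℕ) [NeZero m] (k : Fin m) (b : Fin (m / t)) :
    Function.Injective (colB m t k b) := by
  intro s s' h
  unfold colB at h
  exact rowB_injective m t b (add_right_cancel h)

/-- the block of variables -/
def blk (m t : ℕ) [NeZero m] (p : Fin m × Fin (m / t)) : Finset (Fin m × Fin m) :=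
  univ.image (fun s : Fin t => (rowB m t p.2 s, colB m t p.1 p.2 s))

lemma blk_disjoint (m t : ℕ) [NeZero m] :
    ((univ : Finset (Fin m × Fin (m / t))) : Set (Fin m × Fin (m / t))).PairwiseDisjoint
      (blk m t) := by
  rintro ⟨k, b⟩ _ ⟨k', b'⟩ _ hne
  simp only [Function.onFun]
  rw [Finset.disjoint_left]
  intro v hv hv'
  simp only [blk, mem_image, mem_univ, true_and] at hv hv'
  obtain ⟨s, rfl⟩ := hv
  obtain ⟨s', hs'⟩ := hv'
  apply hne
  have h1 := congrArg Prod.fst hs'
  have h2 := congrArg Prod.snd hs'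
  simp only at h1 h2
  have h3 := congrArg Fin.val h1
  simp only [rowB] at h3
  have hs := s.2
  have hs2 := s'.2
  have hb : b'.1 = b.1 := by
    have e1 : (b'.1 * t + s'.1) / t = b'.1 := by
      rw [mul_comm, Nat.mul_add_div (by omega), Nat.div_eq_of_lt hs2, add_zero]
    have e2 : (b.1 * t + s.1) / t = b.1 := by
      rw [mul_comm, Nat.mul_add_div (by omega), Nat.div_eq_of_lt hs, add_zero]
    rw [← e1, ← e2, h3]
  have hb' : b' = b := Fin.ext hb
  subst hb'
  unfold colB at h2
  rw [h1] at h2
  rw [add_left_cancel h2]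

end Pool.Agent.H567.Nec
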