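import Mathlib

set_option autoImplicit false

namespace Pool.Agent.H567.Nec

open MvPolynomial

universe u v

/-- Arithmetic formulas over `K` with variables indexed by `σ`: trees whose leaves are variables or
constants and whose inner nodes are binary additions or multiplications. -/
inductive Formula (K : Type u) (σ : Type v) : Type (max u v)
  | var (i : σ) : Formula K σ
  | const (c : K) : Formula K σ
  | add (f g : Formula K σ) : Formula K σ
  | mul (f g : Formula K σ) : Formula K σ

namespace Formula

variable {K : Type u} {σ : Type v}

/-- The polynomial computed by a formula. -/
noncomputable def poly [Field K] : Formula K σ → MvPolynomial σ K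
  | var i => X i
  | const c => C c
  | add f g => f.poly + g.poly
  | mul f g => f.poly * g.poly

/-- The number of leaves which are labelled by a variable. -/
def size : Formula K σ → ℕ
  | var _ => 1
  | const _ => 0
  | add f g => f.size + g.size
  | mul f g => f.size + g.size

end Formula

end Pool.Agent.H567.Nec
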