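import Mathlib

set_option autoImplicit false
set_option linter.unusedSectionVars false

namespace Pool.Agent.H567.Nec

open Finset

variable {K : Type*} [Field K] {τ ν : Type*} [Fintype τ] [DecidableEq τ] [Fintype ν] [DecidableEq ν]

/-- `h` is injective away from `none`. -/
def PInj (h : τ → Option ν) : Prop := ∀ s s', h s = h s' → h s ≠ none → s = s'

instance (h : τ → Option ν) : Decidable (PInj h) := by unfold PInj; infer_instance

/-- weighted sum over partial injections -/
def pin (wt : τ → Option ν → K) : K := ∑ h : τ → Option ν, if PInj h then ∏ s, wt s (h s) else 0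

/-- weighted sum over partial injections avoiding `j` -/
def al (wt : τ → Option ν → K) (j : ν) : K :=
  ∑ h : τ → Option ν, if PInj h ∧ ∀ s, h s ≠ some j then ∏ s, wt s (h s) else 0

/-- weights: rows in `R` must be matched (weights `u`), rows outside of `R` are not matched. -/
def wtR (u : τ → ν → K) (R : Finset τ) (s : τ) : Option ν → K
  | none => if s ∈ R then 0 else 1
  | some c => if s ∈ R then u s c else 0

/-- weights with a free parameter at `none`. -/
def wtx (u : τ → ν → K) (x : τ → K) (s : τ) : Option ν → K
  | none => x s
  | some c => u s c

lemma pinj_update {h : τ → Option ν} (hh : PInj h) {s : τ} : PInj (Function.update h s none) := by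
  intro a b hab hne
  by_cases ha : a = s
  · subst ha; simp at hne
  · by_cases hb : b = s
    · subst hb
      rw [Function.update_of_ne ha] at hab hne
      simp at hab
      exact absurd hab hne
    · rw [Function.update_of_ne ha] at hab hne
      rw [Function.update_of_ne hb] at hab
      exact hh a b hab hne

lemma pinj_update_some {h : τ → Option ν} (hh : PInj h) {s : τ} {j : ν} (hj : ∀ s, h s ≠ some j) :
    PInj (Function.update h s (some j)) := by
  intro a b hab hne
  by_cases ha : a = s
  · subst ha
    by_cases hb : b = a
    · exact hb.symm
    · rw [Function.update_self, Function.update_of_ne hb] at hab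
      exact absurd hab.symm (hj b)
  · by_cases hb : b = s
    · subst hb
      rw [Function.update_of_ne ha, Function.update_self] at hab
      exact absurd hab (hj a)
    · rw [Function.update_of_ne ha] at hab hne
      rw [Function.update_of_ne hb] at hab
      exact hh a b hab hne

/-- The basic recurrence. -/
lemma pin_wtR (u : τ → ν → K) (R : Finset τ) (j : ν) :
    pin (wtR u R) = al (wtR u R) j + ∑ s ∈ R, u s j * al (wtR u (R.erase s)) j := by
  have step1 : ∀ h : τ → Option ν, (if PInj h then ∏ s, wtR u R s (h s) else 0)
      = (if PInj h ∧ ∀ s, h s ≠ some j then ∏ s, wtR u R s (h s) else 0)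
        + ∑ s, if PInj h ∧ h s = some j then ∏ s, wtR u R s (h s) else 0 := by
    intro h
    by_cases hh : PInj h
    · by_cases hj : ∀ s, h s ≠ some j
      · rw [if_pos hh, if_pos ⟨hh, hj⟩, Finset.sum_eq_zero, add_zero]
        intro s _
        rw [if_neg]
        exact fun h' => hj s h'.2
      · rw [if_pos hh, if_neg (fun h' => hj h'.2), zero_add]
        push Not at hj
        obtain ⟨s, hs⟩ := hj
        rw [Finset.sum_eq_single s]
        · rw [if_pos ⟨hh, hs⟩]
        · intro b _ hb
          rw [if_neg]
          rintro ⟨_, hb'⟩
          apply hb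
          apply hh b s
          · rw [hb', hs]
          · rw [hb']; simp
        · simp
    · simp [hh]
  unfold pin
  rw [Finset.sum_congr rfl (fun h _ => step1 h), Finset.sum_add_distrib]
  congr 1
  rw [Finset.sum_comm]
  rw [← Finset.sum_subset (Finset.subset_univ R)]
  · apply Finset.sum_congr rfl
    intro s hs
    unfold al
    rw [Finset.mul_sum]
    rw [← Finset.sum_filter (p := fun h : τ → Option ν => PInj h ∧ h s = some j)]
    have hr : ∑ h : τ → Option ν, (u s j * if PInj h ∧ ∀ s, h s ≠ some j then
        ∏ s', wtR u (R.erase s) s' (h s') else 0)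
        = ∑ h ∈ univ.filter (fun h : τ → Option ν => (PInj h ∧ ∀ s, h s ≠ some j) ∧ h s = none),
          u s j * ∏ s', wtR u (R.erase s) s' (h s') := by
      rw [Finset.sum_filter]
      apply Finset.sum_congr rfl
      intro h _
      by_cases hh : PInj h ∧ ∀ s, h s ≠ some j
      · by_cases hn : h s = none
        · rw [if_pos hh, if_pos ⟨hh, hn⟩]
        · rw [if_pos hh, if_neg (fun h' => hn h'.2)]
          have : ∏ s', wtR u (R.erase s) s' (h s') = 0 := by
            apply Finset.prod_eq_zero (Finset.mem_univ s)
            cases hc : h s with
            | none => exact absurd hc hn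
            | some c => simp [wtR]
          rw [this, mul_zero]
      · rw [if_neg hh, if_neg (fun h' => hh h'.1), mul_zero]
    rw [hr]
    refine Finset.sum_bij' (fun h _ => Function.update h s none)
      (fun h _ => Function.update h s (some j)) ?_ ?_ ?_ ?_ ?_
    · intro h hh
      simp only [mem_filter, mem_univ, true_and] at hh ⊢
      refine ⟨⟨pinj_update hh.1, ?_⟩, by simp⟩
      intro a
      by_cases ha : a = s
      · subst ha; simp
      · rw [Function.update_of_ne ha]
        intro hcon
        apply ha
        apply hh.1 a s
        · rw [hcon, hh.2]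
        · rw [hcon]; simp
    · intro h hh
      simp only [mem_filter, mem_univ, true_and] at hh ⊢
      exact ⟨pinj_update_some hh.1.1 hh.1.2, by simp⟩
    · intro h hh
      simp only [mem_filter, mem_univ, true_and] at hh
      have := hh.2
      simp [← this]
    · intro h hh
      simp only [mem_filter, mem_univ, true_and] at hh
      have := hh.2
      simp [← this]
    · intro h hh
      simp only [mem_filter, mem_univ, true_and] at hh
      rw [← Finset.mul_prod_erase univ _ (Finset.mem_univ s), hh.2]
      rw [← Finset.mul_prod_erase univ (fun s' => wtR u (R.erase s) s' _) (Finset.mem_univ s)]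
      rw [Function.update_self]
      have e1 : wtR u R s (some j) = u s j := by simp [wtR, hs]
      have e2 : wtR u (R.erase s) s none = 1 := by simp [wtR]
      rw [e1, e2, one_mul]
      congr 1
      apply Finset.prod_congr rfl
      intro a ha
      have ha' : a ≠ s := Finset.ne_of_mem_erase ha
      rw [Function.update_of_ne ha']
      cases h a with
      | none => simp [wtR, ha']
      | some c => simp [wtR, ha']
  · intro s _ hs
    apply Finset.sum_eq_zero
    intro h _
    split_ifs with hh
    · apply Finset.prod_eq_zero (Finset.mem_univ s)
      rw [hh.2]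
      simp [wtR, hs]
    · rfl

/-- the monomial functions -/
def mon (u : τ → ν → K) (Q : Finset τ) : ν → K := fun j => ∏ s ∈ Q, u s j

lemma al_empty (u : τ → ν → K) (j : ν) : al (wtR u ∅) j = 1 := by
  unfold al
  rw [Finset.sum_eq_single (fun _ => none)]
  · rw [if_pos]
    · simp [wtR]
    · constructor
      · intro s s' _ h; exact absurd rfl h
      · simp
  · intro h _ hne
    split_ifs with hh
    · obtain ⟨s, hs⟩ : ∃ s, h s ≠ none := by
        by_contra hcon
        push Not at hcon
        exact hne (funext hcon)
      apply Finset.prod_eq_zero (Finset.mem_univ s)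
      cases hc : h s with
      | none => exact absurd hc hs
      | some c => simp [wtR]
    · rfl
  · simp

/-- span of the lower monomials -/
def lowSpan (u : τ → ν → K) (R : Finset τ) : Submodule K (ν → K) :=
  Submodule.span K {f | ∃ Q : Finset τ, Q ⊂ R ∧ f = mon u Q}

lemma mul_lowSpan (u : τ → ν → K) {R : Finset τ} {s : τ} (hs : s ∈ R) {g : ν → K}
    (hg : g ∈ lowSpan u (R.erase s)) : (fun j => u s j * g j) ∈ lowSpan u R := by
  unfold lowSpan at hg
  induction hg using Submodule.span_induction with
  | mem x hx =>
    obtain ⟨Q, hQ, rfl⟩ := hx
    apply Submodule.subset_span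
    have hsQ : s ∉ Q := fun h => Finset.notMem_erase s R (hQ.1 h)
    refine ⟨insert s Q, ?_, ?_⟩
    · rw [Finset.ssubset_iff_subset_ne]
      constructor
      · intro a ha
        rcases Finset.mem_insert.mp ha with rfl | ha
        · exact hs
        · exact Finset.mem_of_mem_erase (hQ.1 ha)
      · intro heq
        apply hQ.2
        intro a ha
        have ha2 : a ∈ insert s Q := heq ▸ Finset.mem_of_mem_erase ha
        rcases Finset.mem_insert.mp ha2 with rfl | h
        · exact absurd ha (Finset.notMem_erase _ _)
        · exact h
    · funext j
      simp [mon, Finset.prod_insert hsQ]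
  | zero =>
    have : (fun j => u s j * (0 : ν → K) j) = 0 := by funext j; simp
    rw [this]; exact Submodule.zero_mem _
  | add x y _ _ hx hy =>
    have : (fun j => u s j * (x + y) j) = (fun j => u s j * x j) + (fun j => u s j * y j) := by
      funext j; simp [mul_add]
    rw [this]; exact Submodule.add_mem _ hx hy
  | smul c x _ hx =>
    have : (fun j => u s j * (c • x) j) = c • (fun j => u s j * x j) := by
      funext j; simp; ring
    rw [this]; exact Submodule.smul_mem _ _ hx

lemma lowSpan_mono (u : τ → ν → K) {R R' : Finset τ} (h : R ⊆ R') :
    lowSpan u R ≤ lowSpan u R' := by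
  apply Submodule.span_mono
  rintro f ⟨Q, hQ, rfl⟩
  exact ⟨Q, lt_of_lt_of_le hQ h, rfl⟩

/-- Triangularity. -/
lemma al_eq (u : τ → ν → K) (R : Finset τ) :
    (fun j => al (wtR u R) j) - ((-1) ^ R.card * (R.card.factorial : K)) • mon u R
      ∈ lowSpan u R := by
  induction R using Finset.strongInduction with
  | H R ih =>
    by_cases hR : R = ∅
    · subst hR
      have : (fun j => al (wtR u ∅) j) - ((-1 : K) ^ (∅ : Finset τ).card *
          ((∅ : Finset τ).card.factorial : K)) • mon u ∅ = 0 := by
        funext j
        simp [al_empty, mon]
      rw [this]; exact Submodule.zero_mem _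
    · have hrec : (fun j => al (wtR u R) j) - ((-1) ^ R.card * (R.card.factorial : K)) • mon u R
          = pin (wtR u R) • mon u ∅
            - ∑ s ∈ R, (fun j => u s j * ((fun j => al (wtR u (R.erase s)) j)
              - ((-1) ^ (R.erase s).card * ((R.erase s).card.factorial : K)) • mon u (R.erase s)) j) := by
        funext j
        simp only [Pi.sub_apply, Pi.smul_apply, smul_eq_mul, Finset.sum_apply]
        rw [pin_wtR u R j]
        have e1 : mon u ∅ j = 1 := by simp [mon]
        rw [e1, mul_one]
        have e2 : ∑ s ∈ R, u s j * (al (wtR u (R.erase s)) j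
            - (-1) ^ (R.erase s).card * ((R.erase s).card.factorial : K) * mon u (R.erase s) j)
            = ∑ s ∈ R, u s j * al (wtR u (R.erase s)) j
              - ∑ s ∈ R, (-1) ^ (R.card - 1) * ((R.card - 1).factorial : K) * mon u R j := by
          rw [← Finset.sum_sub_distrib]
          apply Finset.sum_congr rfl
          intro s hs
          rw [Finset.card_erase_of_mem hs]
          have : mon u R j = u s j * mon u (R.erase s) j := by
            unfold mon
            rw [Finset.mul_prod_erase R (fun s => u s j) hs]
          rw [this]
          ring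
        rw [e2, Finset.sum_const, nsmul_eq_mul]
        obtain ⟨r, hr⟩ : ∃ r, R.card = r + 1 :=
          ⟨R.card - 1, by have := Finset.card_pos.mpr (Finset.nonempty_iff_ne_empty.mpr hR); omega⟩
        rw [hr, Nat.add_sub_cancel, Nat.factorial_succ]
        push_cast
        ring
      rw [hrec]
      apply Submodule.sub_mem
      · apply Submodule.smul_mem
        apply Submodule.subset_span
        exact ⟨∅, Finset.empty_ssubset.mpr (Finset.nonempty_iff_ne_empty.mpr hR), rfl⟩
      · apply Submodule.sum_mem
        intro s hs
        apply mul_lowSpan u hs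
        exact ih _ (Finset.erase_ssubset hs)

/-- Any subspace which contains all `al (wtR u R)` contains all monomial functions. -/
lemma mon_mem [CharZero K] (u : τ → ν → K) (A : Submodule K (ν → K))
    (hA : ∀ R : Finset τ, (fun j => al (wtR u R) j) ∈ A) (R : Finset τ) : mon u R ∈ A := by
  induction R using Finset.strongInduction with
  | H R ih =>
    have h1 := al_eq u R
    have h2 : lowSpan u R ≤ A := by
      unfold lowSpan
      rw [Submodule.span_le]
      rintro f ⟨Q, hQ, rfl⟩
      exact ih Q hQ
    have h3 := A.sub_mem (hA R) (h2 h1)
    have h4 : ((-1) ^ R.card * (R.card.factorial : K)) • mon u R ∈ A := by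
      convert h3 using 1
      abel
    have hc : ((-1) ^ R.card * (R.card.factorial : K)) ≠ 0 := by
      apply mul_ne_zero
      · apply pow_ne_zero; simp
      · exact_mod_cast Nat.factorial_ne_zero _
    have h5 := A.smul_mem ((-1) ^ R.card * (R.card.factorial : K))⁻¹ h4
    rwa [smul_smul, inv_mul_cancel₀ hc, one_smul] at h5

/-- If the `0/1` vectors separate points then the monomial functions span. -/
lemma span_mon (c : ν → τ → Bool) (hc : Function.Injective c) (A : Submodule K (ν → K))
    (hA : ∀ R : Finset τ, mon (fun s j => if c j s then (1 : K) else 0) R ∈ A) : A = ⊤ := by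
  rw [eq_top_iff]
  intro f _
  have hsingle : ∀ j0 : ν, (fun j => if j = j0 then (1 : K) else 0) ∈ A := by
    intro j0
    have e : (fun j => if j = j0 then (1 : K) else 0)
        = ∑ R ∈ (univ : Finset τ).powerset, ((∏ s ∈ R, (if c j0 s then (1 : K) else -1)) *
            ∏ s ∈ univ \ R, (if c j0 s then (0 : K) else 1)) •
            mon (fun s j => if c j s then (1 : K) else 0) R := by
      funext j
      have h1 : (if j = j0 then (1 : K) else 0) = ∏ s : τ,
          ((if c j0 s then (1 : K) else -1) * (if c j s then (1 : K) else 0)
            + (if c j0 s then (0 : K) else 1)) := by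
        by_cases hj : j = j0
        · subst hj
          rw [if_pos rfl, eq_comm]
          apply Finset.prod_eq_one
          intro s _
          cases c j s <;> simp
        · rw [if_neg hj, eq_comm]
          have : c j ≠ c j0 := fun h => hj (hc h)
          obtain ⟨s, hs⟩ := Function.ne_iff.mp this
          apply Finset.prod_eq_zero (Finset.mem_univ s)
          cases h1 : c j s <;> cases h2 : c j0 s <;> simp_all
      rw [h1, Finset.prod_add]
      simp only [Finset.sum_apply, Pi.smul_apply, smul_eq_mul, mon]
      apply Finset.sum_congr rfl
      intro R _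
      rw [Finset.prod_mul_distrib]
      ring
    rw [e]
    apply Submodule.sum_mem
    intro R _
    exact Submodule.smul_mem _ _ (hA R)
  have e : f = ∑ j0, f j0 • (fun j => if j = j0 then (1 : K) else 0) := by
    funext j
    simp
  rw [e]
  apply Submodule.sum_mem
  intro j0 _
  exact Submodule.smul_mem _ _ (hsingle j0)

/-- mixed weights -/
def wtm (u : τ → ν → K) (x : τ → K) (S : Finset τ) (s : τ) : Option ν → K
  | none => if s ∈ S then 1 else x s
  | some c => if s ∈ S then 0 else u s c

lemma al_insert (u : τ → ν → K) (x : τ → K) (S : Finset τ) {s : τ} (hs : s ∉ S) (j : ν) :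
    al (wtm u x (insert s S)) j
      = al (wtm u (Function.update x s 1) S) j - al (wtm u (Function.update x s 0) S) j := by
  unfold al
  rw [← Finset.sum_sub_distrib]
  apply Finset.sum_congr rfl
  intro h _
  split_ifs with hh
  · rw [← Finset.mul_prod_erase univ _ (Finset.mem_univ s),
      ← Finset.mul_prod_erase univ (fun s' => wtm u (Function.update x s 1) S s' (h s')) (Finset.mem_univ s),
      ← Finset.mul_prod_erase univ (fun s' => wtm u (Function.update x s 0) S s' (h s')) (Finset.mem_univ s)]
    have e1 : ∏ a ∈ univ.erase s, wtm u (Function.update x s 1) S a (h a)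
        = ∏ a ∈ univ.erase s, wtm u x (insert s S) a (h a) := by
      apply Finset.prod_congr rfl
      intro a ha
      have ha' : a ≠ s := Finset.ne_of_mem_erase ha
      cases h a with
      | none => simp [wtm, ha']
      | some c => simp [wtm, ha']
    have e2 : ∏ a ∈ univ.erase s, wtm u (Function.update x s 0) S a (h a)
        = ∏ a ∈ univ.erase s, wtm u x (insert s S) a (h a) := by
      apply Finset.prod_congr rfl
      intro a ha
      have ha' : a ≠ s := Finset.ne_of_mem_erase ha
      cases h a with
      | none => simp [wtm, ha']
      | some c => simp [wtm, ha']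
    rw [e1, e2, ← sub_mul]
    congr 1
    cases h s with
    | none => simp [wtm, hs]
    | some c => simp [wtm, hs]
  · simp

lemma al_wtm_mem (u : τ → ν → K) (A : Submodule K (ν → K))
    (hA : ∀ x : τ → K, (fun j => al (wtx u x) j) ∈ A) (S : Finset τ) (x : τ → K) :
    (fun j => al (wtm u x S) j) ∈ A := by
  induction S using Finset.induction_on generalizing x with
  | empty =>
    have : wtm u x ∅ = wtx u x := by
      funext s o
      cases o <;> simp [wtm, wtx]
    rw [this]; exact hA x
  | insert s S hs ih =>
    have : (fun j => al (wtm u x (insert s S)) j)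
        = (fun j => al (wtm u (Function.update x s 1) S) j)
          - (fun j => al (wtm u (Function.update x s 0) S) j) := by
      funext j
      rw [al_insert u x S hs j]
      rfl
    rw [this]
    exact A.sub_mem (ih _) (ih _)

/-- The vectors `al (wtx u x)` span everything. -/
theorem span_al [CharZero K] (c : ν → τ → Bool) (hc : Function.Injective c)
    (A : Submodule K (ν → K))
    (hA : ∀ x : τ → K, (fun j => al (wtx (fun s j => if c j s then (1 : K) else 0) x) j) ∈ A) :
    A = ⊤ := by
  apply span_mon c hc
  apply mon_mem
  intro R
  have h := al_wtm_mem _ A hA Rᶜ 0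
  have : wtm (fun s j => if c j s then (1 : K) else 0) 0 Rᶜ
      = wtR (fun s j => if c j s then (1 : K) else 0) R := by
    funext s o
    cases o with
    | none =>
      by_cases hs : s ∈ R <;> simp [wtm, wtR, hs]
    | some c =>
      by_cases hs : s ∈ R <;> simp [wtm, wtR, hs]
  rw [this] at h
  exact h

end Pool.Agent.H567.Nec
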