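import Mathlib
import Pool.Agent.H567.PermCount
import Pool.Agent.H567.Nec.Core

set_option autoImplicit false
set_option linter.unusedSectionVars false

namespace Pool.Agent.H567.Nec

open Finset Equiv

/-- number of permutations with prescribed values, arbitrary index type -/
lemma exists_card_prescribed' (B : Type*) [Fintype B] [DecidableEq B] (ι : Type*) [Fintype ι]
    [DecidableEq ι] :
    ∃ N : ℕ, (∀ R L : B → ι, Function.Injective R → Function.Injective L →
      (univ.filter (fun σ : Perm ι => ∀ c, σ (R c) = L c)).card = N) ∧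
      (Fintype.card B ≤ Fintype.card ι → N ≠ 0) := by
  obtain ⟨N, hN, hN0⟩ := exists_card_prescribed (Fintype.card B) ι
  refine ⟨N, ?_, hN0⟩
  intro R L hR hL
  let e := (Fintype.equivFin B).symm
  rw [← hN (R ∘ e) (L ∘ e) (hR.comp e.injective) (hL.comp e.injective)]
  congr 1
  ext σ
  simp only [mem_filter, mem_univ, true_and, Function.comp]
  constructor
  · intro h c; exact h (e c)
  · intro h c
    have := h (e.symm c)
    simpa using this

section

variable {K : Type*} [Field K] {τ₁ τ₂ ν : Type*} [Fintype τ₁] [DecidableEq τ₁] [Fintype τ₂]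
  [DecidableEq τ₂] [Fintype ν] [DecidableEq ν]

/-- index type -/
abbrev Ix (τ₁ τ₂ ν : Type*) := τ₁ ⊕ (τ₂ ⊕ ν)

def ps1 (s : τ₁) : Option ν → Ix τ₁ τ₂ ν
  | none => Sum.inl s
  | some c => Sum.inr (Sum.inr c)

def ps2 (s : τ₂) : Option ν → Ix τ₁ τ₂ ν
  | none => Sum.inr (Sum.inl s)
  | some c => Sum.inr (Sum.inr c)

def fa (wa : τ₁ → Option ν → K) : Ix τ₁ τ₂ ν → Ix τ₁ τ₂ ν → K
  | Sum.inl s, c => ∑ o : Option ν, if ps1 s o = c then wa s o else 0
  | Sum.inr _, _ => 1

def fb (wb : τ₂ → Option ν → K) : Ix τ₁ τ₂ ν → Ix τ₁ τ₂ ν → K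
  | _, Sum.inl _ => 1
  | r, Sum.inr (Sum.inl s) => ∑ o : Option ν, if ps2 s o = r then wb s o else 0
  | _, Sum.inr (Sum.inr _) => 1

/-- the base matrix -/
def Mx (wa : τ₁ → Option ν → K) (wb : τ₂ → Option ν → K) : Matrix (Ix τ₁ τ₂ ν) (Ix τ₁ τ₂ ν) K :=
  fun r c => fa wa r c * fb wb r c

lemma Mx_nu (wa : τ₁ → Option ν → K) (wb : τ₂ → Option ν → K) (i j : ν) :
    Mx wa wb (Sum.inr (Sum.inr i)) (Sum.inr (Sum.inr j)) = 1 := by
  simp [Mx, fa, fb]

lemma prod_Mx (wa : τ₁ → Option ν → K) (wb : τ₂ → Option ν → K) (σ : Perm (Ix τ₁ τ₂ ν)) :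
    ∏ c, Mx wa wb (σ c) c = ∑ h : τ₁ → Option ν, ∑ g : τ₂ → Option ν,
      if (∀ s, σ (ps1 s (h s)) = Sum.inl s) ∧ (∀ s, σ (Sum.inr (Sum.inl s)) = ps2 s (g s)) then
        (∏ s, wa s (h s)) * ∏ s, wb s (g s) else 0 := by
  unfold Mx
  rw [Finset.prod_mul_distrib]
  have e1 : ∏ c, fa wa (σ c) c = ∏ s : τ₁, ∑ o : Option ν,
      if σ (ps1 (τ₂ := τ₂) s o) = Sum.inl s then wa s o else 0 := by
    rw [← Equiv.prod_comp σ.symm]
    simp only [Equiv.apply_symm_apply]
    rw [Fintype.prod_sum_type]
    have : ∏ x : τ₂ ⊕ ν, fa wa (Sum.inr x) (σ.symm (Sum.inr x)) = 1 :=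
      Finset.prod_eq_one (fun x _ => rfl)
    rw [this, mul_one]
    apply Finset.prod_congr rfl
    intro s _
    unfold fa
    apply Finset.sum_congr rfl
    intro o _
    congr 1
    rw [Equiv.eq_symm_apply]
  have e2 : ∏ c, fb wb (σ c) c = ∏ s : τ₂, ∑ o : Option ν,
      if σ (Sum.inr (Sum.inl s)) = ps2 (τ₁ := τ₁) s o then wb s o else 0 := by
    rw [Fintype.prod_sum_type, Fintype.prod_sum_type]
    have h1 : ∏ x : τ₁, fb wb (σ (Sum.inl x)) (Sum.inl x) = 1 :=
      Finset.prod_eq_one (fun x _ => by simp [fb])
    have h2 : ∏ x : ν, fb wb (σ (Sum.inr (Sum.inr x))) (Sum.inr (Sum.inr x)) = 1 :=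
      Finset.prod_eq_one (fun x _ => by simp [fb])
    rw [h1, h2, one_mul, mul_one]
    apply Finset.prod_congr rfl
    intro s _
    unfold fb
    apply Finset.sum_congr rfl
    intro o _
    by_cases h : ps2 s o = σ (Sum.inr (Sum.inl s))
    · rw [if_pos h, if_pos h.symm]
    · rw [if_neg h, if_neg (fun h' => h h'.symm)]
  rw [e1, e2, Fintype.prod_sum, Fintype.prod_sum, Finset.sum_mul_sum]
  apply Finset.sum_congr rfl
  intro h _
  apply Finset.sum_congr rfl
  intro g _
  by_cases h1 : ∀ s, σ (ps1 s (h s)) = Sum.inl s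
  · by_cases h2 : ∀ s, σ (Sum.inr (Sum.inl s)) = ps2 s (g s)
    · rw [if_pos ⟨h1, h2⟩]
      congr 1
      · apply Finset.prod_congr rfl
        intro s _; rw [if_pos (h1 s)]
      · apply Finset.prod_congr rfl
        intro s _; rw [if_pos (h2 s)]
    · rw [if_neg (fun h' => h2 h'.2)]
      push Not at h2
      obtain ⟨s, hs⟩ := h2
      rw [Finset.prod_eq_zero (i := s) (s := univ) (f := fun s => if σ (Sum.inr (Sum.inl s)) = ps2 s (g s) then wb s (g s) else 0)
        (Finset.mem_univ s) (if_neg hs), mul_zero]
  · rw [if_neg (fun h' => h1 h'.1)]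
    push Not at h1
    obtain ⟨s, hs⟩ := h1
    rw [Finset.prod_eq_zero (i := s) (s := univ) (f := fun s => if σ (ps1 s (h s)) = Sum.inl s then wa s (h s) else 0)
        (Finset.mem_univ s) (if_neg hs), zero_mul]

/-- points -/
def Rp (h : τ₁ → Option ν) (j : ν) : Option (τ₁ ⊕ τ₂) → Ix τ₁ τ₂ ν
  | none => Sum.inr (Sum.inr j)
  | some (Sum.inl s) => ps1 s (h s)
  | some (Sum.inr s) => Sum.inr (Sum.inl s)

/-- values -/
def Lp (g : τ₂ → Option ν) (i : ν) : Option (τ₁ ⊕ τ₂) → Ix τ₁ τ₂ ν
  | none => Sum.inr (Sum.inr i)
  | some (Sum.inl s) => Sum.inl s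
  | some (Sum.inr s) => ps2 s (g s)

lemma Rp_inj (h : τ₁ → Option ν) (j : ν) :
    Function.Injective (Rp (τ₂ := τ₂) h j) ↔ (PInj h ∧ ∀ s, h s ≠ some j) := by
  constructor
  · intro hR
    constructor
    · intro s s' hss hne
      have : Rp (τ₂ := τ₂) h j (some (Sum.inl s)) = Rp h j (some (Sum.inl s')) := by
        simp only [Rp]
        rw [← hss]
        cases hc : h s with
        | none => exact absurd hc hne
        | some c => rfl
      have := hR this
      simpa using this
    · intro s hs
      have : Rp (τ₂ := τ₂) h j (some (Sum.inl s)) = Rp h j none := by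
        simp only [Rp]
        rw [hs]; rfl
      have := hR this
      simp at this
  · rintro ⟨hp, hj⟩ a b hab
    rcases a with _ | (s | s) <;> rcases b with _ | (s' | s')
    · rfl
    · exfalso
      cases hc : h s' with
      | none => simp [Rp, hc, ps1] at hab
      | some c =>
        simp only [Rp, hc, ps1] at hab
        injection hab with h1
        injection h1 with h2
        exact hj s' (by rw [hc, h2])
    · simp [Rp] at hab
    · exfalso
      cases hc : h s with
      | none => simp [Rp, hc, ps1] at hab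
      | some c =>
        simp only [Rp, hc, ps1] at hab
        injection hab with h1
        injection h1 with h2
        exact hj s (by rw [hc, h2])
    · cases hc : h s with
      | none =>
        cases hc' : h s' with
        | none => simp only [Rp, hc, hc', ps1] at hab; injection hab with h1; rw [h1]
        | some c' => simp [Rp, hc, hc', ps1] at hab
      | some c =>
        cases hc' : h s' with
        | none => simp [Rp, hc, hc', ps1] at hab
        | some c' =>
          simp only [Rp, hc, hc', ps1] at hab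
          injection hab with h1
          injection h1 with h2
          rw [hp s s' (by rw [hc, hc', h2]) (by rw [hc]; simp)]
    · exfalso
      cases hc : h s with
      | none => simp [Rp, hc, ps1] at hab
      | some c => simp [Rp, hc, ps1] at hab
    · simp [Rp] at hab
    · exfalso
      cases hc : h s' with
      | none => simp [Rp, hc, ps1] at hab
      | some c => simp [Rp, hc, ps1] at hab
    · simp [Rp] at hab
      rw [hab]

lemma Lp_inj (g : τ₂ → Option ν) (i : ν) :
    Function.Injective (Lp (τ₁ := τ₁) g i) ↔ (PInj g ∧ ∀ s, g s ≠ some i) := by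
  constructor
  · intro hR
    constructor
    · intro s s' hss hne
      have : Lp (τ₁ := τ₁) g i (some (Sum.inr s)) = Lp g i (some (Sum.inr s')) := by
        simp only [Lp]
        rw [← hss]
        cases hc : g s with
        | none => exact absurd hc hne
        | some c => rfl
      have := hR this
      simpa using this
    · intro s hs
      have : Lp (τ₁ := τ₁) g i (some (Sum.inr s)) = Lp g i none := by
        simp only [Lp]
        rw [hs]; rfl
      have := hR this
      simp at this
  · rintro ⟨hp, hj⟩ a b hab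
    rcases a with _ | (s | s) <;> rcases b with _ | (s' | s')
    · rfl
    · simp [Lp] at hab
    · exfalso
      cases hc : g s' with
      | none => simp [Lp, hc, ps2] at hab
      | some c =>
        simp only [Lp, hc, ps2] at hab
        injection hab with h1
        injection h1 with h2
        exact hj s' (by rw [hc, h2])
    · simp [Lp] at hab
    · simp [Lp] at hab
      rw [hab]
    · exfalso
      cases hc : g s' with
      | none => simp [Lp, hc, ps2] at hab
      | some c => simp [Lp, hc, ps2] at hab
    · exfalso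
      cases hc : g s with
      | none => simp [Lp, hc, ps2] at hab
      | some c =>
        simp only [Lp, hc, ps2] at hab
        injection hab with h1
        injection h1 with h2
        exact hj s (by rw [hc, h2])
    · exfalso
      cases hc : g s with
      | none => simp [Lp, hc, ps2] at hab
      | some c => simp [Lp, hc, ps2] at hab
    · cases hc : g s with
      | none =>
        cases hc' : g s' with
        | none =>
          simp only [Lp, hc, hc', ps2] at hab; injection hab with h1; injection h1 with h2; rw [h2]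
        | some c' => simp [Lp, hc, hc', ps2] at hab
      | some c =>
        cases hc' : g s' with
        | none => simp [Lp, hc, hc', ps2] at hab
        | some c' =>
          simp only [Lp, hc, hc', ps2] at hab
          injection hab with h1
          injection h1 with h2
          rw [hp s s' (by rw [hc, hc', h2]) (by rw [hc]; simp)]

/-- The gradient of the permanent at the base matrix is a rank one matrix. -/
lemma exists_grad (K : Type*) [Field K] (τ₁ τ₂ ν : Type*) [Fintype τ₁] [DecidableEq τ₁] [Fintype τ₂]
    [DecidableEq τ₂] [Fintype ν] [DecidableEq ν] :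
    ∃ N : ℕ, (1 ≤ Fintype.card ν → N ≠ 0) ∧ ∀ (wa : τ₁ → Option ν → K) (wb : τ₂ → Option ν → K)
      (i j : ν), (∑ σ : Perm (Ix τ₁ τ₂ ν), if σ (Sum.inr (Sum.inr j)) = Sum.inr (Sum.inr i) then
        ∏ c, Mx wa wb (σ c) c else 0) = N * (al wa j * al wb i) := by
  obtain ⟨N, hN, hN0⟩ := exists_card_prescribed' (Option (τ₁ ⊕ τ₂)) (Ix τ₁ τ₂ ν)
  refine ⟨N, ?_, ?_⟩
  · intro h
    apply hN0
    simp only [Fintype.card_option, Fintype.card_sum]
    omega
  intro wa wb i j
  have step : ∀ σ : Perm (Ix τ₁ τ₂ ν), (if σ (Sum.inr (Sum.inr j)) = Sum.inr (Sum.inr i) then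
        ∏ c, Mx wa wb (σ c) c else 0) = ∑ h : τ₁ → Option ν, ∑ g : τ₂ → Option ν,
        (if ∀ x, σ (Rp h j x) = Lp g i x then (1 : K) else 0) *
          ((∏ s, wa s (h s)) * ∏ s, wb s (g s)) := by
    intro σ
    rw [prod_Mx]
    by_cases hij : σ (Sum.inr (Sum.inr j)) = Sum.inr (Sum.inr i)
    · rw [if_pos hij]
      apply Finset.sum_congr rfl
      intro h _
      apply Finset.sum_congr rfl
      intro g _
      by_cases hc : (∀ s, σ (ps1 s (h s)) = Sum.inl s) ∧ (∀ s, σ (Sum.inr (Sum.inl s)) = ps2 s (g s))
      · rw [if_pos hc, if_pos, one_mul]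
        rintro (_ | (s | s))
        · exact hij
        · exact hc.1 s
        · exact hc.2 s
      · rw [if_neg hc, if_neg, zero_mul]
        intro hx
        exact hc ⟨fun s => hx (some (Sum.inl s)), fun s => hx (some (Sum.inr s))⟩
    · rw [if_neg hij, eq_comm]
      apply Finset.sum_eq_zero
      intro h _
      apply Finset.sum_eq_zero
      intro g _
      rw [if_neg, zero_mul]
      intro hx
      exact hij (hx none)
  rw [Finset.sum_congr rfl (fun σ _ => step σ)]
  rw [Finset.sum_comm]
  have step2 : ∀ h : τ₁ → Option ν, ∑ σ : Perm (Ix τ₁ τ₂ ν), ∑ g : τ₂ → Option ν,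
        (if ∀ x, σ (Rp h j x) = Lp g i x then (1 : K) else 0) *
          ((∏ s, wa s (h s)) * ∏ s, wb s (g s))
      = ∑ g : τ₂ → Option ν, (N : K) * ((if PInj h ∧ ∀ s, h s ≠ some j then ∏ s, wa s (h s) else 0)
          * (if PInj g ∧ ∀ s, g s ≠ some i then ∏ s, wb s (g s) else 0)) := by
    intro h
    rw [Finset.sum_comm]
    apply Finset.sum_congr rfl
    intro g _
    rw [← Finset.sum_mul, Finset.sum_boole]
    by_cases h1 : PInj h ∧ ∀ s, h s ≠ some j
    · by_cases h2 : PInj g ∧ ∀ s, g s ≠ some i
      · rw [if_pos h1, if_pos h2, hN _ _ ((Rp_inj h j).mpr h1) ((Lp_inj g i).mpr h2)]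
      · rw [if_neg h2, mul_zero, mul_zero]
        have hL : ¬ Function.Injective (Lp (τ₁ := τ₁) g i) := fun h' => h2 ((Lp_inj g i).mp h')
        have : (univ.filter (fun σ : Perm (Ix τ₁ τ₂ ν) => ∀ x, σ (Rp h j x) = Lp g i x)) = ∅ := by
          apply Finset.filter_eq_empty_iff.mpr
          intro σ _ hσ
          apply hL
          intro a b hab
          rw [← hσ a, ← hσ b] at hab
          exact (Rp_inj h j).mpr h1 (σ.injective hab)
        rw [this]; simp
    · rw [if_neg h1, zero_mul, mul_zero]
      have hRn : ¬ Function.Injective (Rp (τ₂ := τ₂) h j) := fun h' => h1 ((Rp_inj h j).mp h')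
      have : (univ.filter (fun σ : Perm (Ix τ₁ τ₂ ν) => ∀ x, σ (Rp h j x) = Lp g i x)) = ∅ := by
        apply Finset.filter_eq_empty_iff.mpr
        intro σ _ hσ
        -- the failure of injectivity of `Rp` occurs among `none` and `inl`, where `Lp` is injective
        apply h1
        constructor
        · intro s s' hss hne
          have e : Rp (τ₂ := τ₂) h j (some (Sum.inl s)) = Rp h j (some (Sum.inl s')) := by
            simp only [Rp]
            rw [← hss]
            cases hc : h s with
            | none => exact absurd hc hne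
            | some c => rfl
          have h3 := hσ (some (Sum.inl s))
          rw [e, hσ] at h3
          simp [Lp] at h3
          exact h3.symm
        · intro s hs
          have e : Rp (τ₂ := τ₂) h j (some (Sum.inl s)) = Rp h j none := by
            simp only [Rp]
            rw [hs]; rfl
          have h3 := hσ (some (Sum.inl s))
          rw [e, hσ] at h3
          simp [Lp] at h3
      rw [this]; simp
  rw [Finset.sum_congr rfl (fun h _ => step2 h)]
  unfold al
  rw [Finset.sum_mul_sum, Finset.mul_sum]
  apply Finset.sum_congr rfl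
  intro h _
  rw [Finset.mul_sum]

end

section tsze

variable {K : Type*} [Field K] {ω : Type*}

lemma snd_prod' {ι : Type*} [DecidableEq ι] (s : Finset ι) (f : ι → TrivSqZeroExt K (ω → K)) :
    (∏ c ∈ s, f c).snd = ∑ c ∈ s, (∏ c' ∈ s.erase c, (f c').fst) • (f c).snd := by
  induction s using Finset.induction_on with
  | empty => simp
  | insert a s ha ih =>
    rw [Finset.prod_insert ha, TrivSqZeroExt.snd_mul, ih, Finset.sum_insert ha,
      Finset.erase_insert ha]
    have h1 : (∏ c ∈ s, f c).fst = ∏ c ∈ s, (f c).fst := by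
      exact map_prod (TrivSqZeroExt.fstHom K K (ω → K)) f s
    rw [h1, add_comm]
    congr 1
    · simp
    · rw [Finset.smul_sum]
      apply Finset.sum_congr rfl
      intro c hc
      have hne : a ≠ c := fun h => ha (h ▸ hc)
      rw [Finset.erase_insert_of_ne hne, Finset.prod_insert
        (fun h => ha (Finset.mem_of_mem_erase h)), smul_smul]

end tsze

section span

variable {K : Type*} [Field K] {τ₁ τ₂ ν : Type*} [Fintype τ₁] [DecidableEq τ₁] [Fintype τ₂]
  [DecidableEq τ₂] [Fintype ν] [DecidableEq ν]

/-- infinitesimal part of the position `(r,c)` -/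
def ee (K : Type*) [Field K] {τ₁ τ₂ ν : Type*} [DecidableEq ν] :
    Ix τ₁ τ₂ ν → Ix τ₁ τ₂ ν → (ν × ν → K)
  | Sum.inr (Sum.inr i), Sum.inr (Sum.inr j) => Pi.single (i, j) 1
  | _, _ => 0

/-- the first order deformation of the base matrix -/
def Mt (wa : τ₁ → Option ν → K) (wb : τ₂ → Option ν → K) :
    Matrix (Ix τ₁ τ₂ ν) (Ix τ₁ τ₂ ν) (TrivSqZeroExt K (ν × ν → K)) :=
  fun r c => TrivSqZeroExt.inl (Mx wa wb r c) + TrivSqZeroExt.inr (ee K r c)

lemma snd_perm_Mt (wa : τ₁ → Option ν → K) (wb : τ₂ → Option ν → K) (i j : ν) :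
    (Mt wa wb).permanent.snd (i, j) =
      ∑ σ : Perm (Ix τ₁ τ₂ ν), if σ (Sum.inr (Sum.inr j)) = Sum.inr (Sum.inr i) then
        ∏ c, Mx wa wb (σ c) c else 0 := by
  unfold Matrix.permanent
  rw [TrivSqZeroExt.snd_sum, Finset.sum_apply]
  apply Finset.sum_congr rfl
  intro σ _
  rw [snd_prod', Finset.sum_apply]
  have h1 : ∀ r c, (Mt wa wb r c).fst = Mx wa wb r c := by
    intro r c; simp [Mt]
  have h2 : ∀ r c, (Mt wa wb r c).snd = ee K r c := by
    intro r c; simp [Mt]
  simp only [h1, h2, Pi.smul_apply, smul_eq_mul]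
  rw [Finset.sum_eq_single (Sum.inr (Sum.inr j))]
  · by_cases hij : σ (Sum.inr (Sum.inr j)) = Sum.inr (Sum.inr i)
    · rw [if_pos hij, hij, ← Finset.mul_prod_erase univ _ (Finset.mem_univ (Sum.inr (Sum.inr j))),
        hij, Mx_nu]
      simp [ee]
    · rw [if_neg hij]
      rcases hs : σ (Sum.inr (Sum.inr j)) with s | (s | i')
      · simp [ee]
      · simp [ee]
      · have hne : i' ≠ i := by
          intro h; apply hij; rw [hs, h]
        simp [ee, hne.symm]
  · intro c _ hc
    rcases c with s | (s | j')
    · rcases σ (Sum.inl s) with s' | (s' | i') <;> simp [ee]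
    · rcases σ (Sum.inr (Sum.inl s)) with s' | (s' | i') <;> simp [ee]
    · rcases σ (Sum.inr (Sum.inr j')) with s' | (s' | i')
      · simp [ee]
      · simp [ee]
      · have hne : j' ≠ j := by
          intro h; apply hc; rw [h]
        simp [ee, hne.symm]
  · simp

/-- Main spanning theorem: the gradients of the permanent in the `ν × ν` block, along the points of
the affine subspace with free parameters `x, y`, span everything. -/
theorem span_perm [CharZero K] (c₁ : ν → τ₁ → Bool) (hc₁ : Function.Injective c₁)
    (c₂ : ν → τ₂ → Bool) (hc₂ : Function.Injective c₂)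
    (A : Submodule K (ν × ν → K))
    (hA : ∀ (x : τ₁ → K) (y : τ₂ → K),
      (Mt (wtx (fun s j => if c₁ j s then (1 : K) else 0) x)
        (wtx (fun s j => if c₂ j s then (1 : K) else 0) y)).permanent.snd ∈ A) : A = ⊤ := by
  by_cases hν : Fintype.card ν = 0
  · have := Fintype.card_eq_zero_iff.mp hν
    rw [eq_top_iff]
    intro f _
    have : f = 0 := by funext x; exact this.elim x.1
    rw [this]; exact A.zero_mem
  obtain ⟨N, hN0, hN⟩ := exists_grad K τ₁ τ₂ ν
  have hNK : (N : K) ≠ 0 := by
    exact_mod_cast hN0 (by omega)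
  have h1 : ∀ (x : τ₁ → K) (y : τ₂ → K),
      (fun p : ν × ν => al (wtx (fun s j => if c₁ j s then (1 : K) else 0) x) p.2 *
        al (wtx (fun s j => if c₂ j s then (1 : K) else 0) y) p.1) ∈ A := by
    intro x y
    have h := A.smul_mem (N : K)⁻¹ (hA x y)
    convert h using 1
    funext p
    obtain ⟨i, j⟩ := p
    rw [Pi.smul_apply, snd_perm_Mt, hN, smul_eq_mul, ← mul_assoc, inv_mul_cancel₀ hNK, one_mul]
  -- tensor structure
  have h2 : ∀ (y : τ₂ → K) (f : ν → K),
      (fun p : ν × ν => f p.2 * al (wtx (fun s j => if c₂ j s then (1 : K) else 0) y) p.1) ∈ A := by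
    intro y
    let A' : Submodule K (ν → K) :=
      { carrier := {f | (fun p : ν × ν => f p.2 *
          al (wtx (fun s j => if c₂ j s then (1 : K) else 0) y) p.1) ∈ A}
        add_mem' := by
          intro a b ha hb
          simp only [Set.mem_ofPred_eq] at ha hb ⊢
          convert A.add_mem ha hb using 1
          funext p
          simp [add_mul]
        zero_mem' := by
          simp only [Set.mem_ofPred_eq]
          convert A.zero_mem using 1
          funext p
          simp
        smul_mem' := by
          intro c a ha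
          simp only [Set.mem_ofPred_eq] at ha ⊢
          convert A.smul_mem c ha using 1
          funext p
          simp [mul_assoc] }
    have : A' = ⊤ := by
      apply span_al c₁ hc₁
      intro x
      exact h1 x y
    intro f
    have hf : f ∈ A' := by rw [this]; trivial
    exact hf
  have h3 : ∀ (f g : ν → K), (fun p : ν × ν => f p.2 * g p.1) ∈ A := by
    intro f
    let A' : Submodule K (ν → K) :=
      { carrier := {g | (fun p : ν × ν => f p.2 * g p.1) ∈ A}
        add_mem' := by
          intro a b ha hb
          simp only [Set.mem_ofPred_eq] at ha hb ⊢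
          convert A.add_mem ha hb using 1
          funext p
          simp [mul_add]
        zero_mem' := by
          simp only [Set.mem_ofPred_eq]
          convert A.zero_mem using 1
          funext p
          simp
        smul_mem' := by
          intro c a ha
          simp only [Set.mem_ofPred_eq] at ha ⊢
          convert A.smul_mem c ha using 1
          funext p
          simp; ring }
    have : A' = ⊤ := by
      apply span_al c₂ hc₂
      intro y
      exact h2 y f
    intro g
    have hg : g ∈ A' := by rw [this]; trivial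
    exact hg
  rw [eq_top_iff]
  intro f _
  have e : f = ∑ i, ∑ j, f (i, j) • (fun p : ν × ν => (if p.2 = j then (1 : K) else 0) *
      (if p.1 = i then 1 else 0)) := by
    funext p
    obtain ⟨a, b⟩ := p
    simp
  rw [e]
  apply Submodule.sum_mem
  intro i _
  apply Submodule.sum_mem
  intro j _
  apply Submodule.smul_mem
  exact h3 (fun b => if b = j then (1 : K) else 0) (fun a => if a = i then 1 else 0)

end span

end Pool.Agent.H567.Nec
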