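import Mathlib
import Pool.Agent.H567.Nec.Perm

set_option autoImplicit false
set_option linter.unusedSectionVars false

namespace Pool.Agent.H567.Nec

open Finset Equiv

/-- extension of an injection to an equivalence -/
lemma exists_equiv_extend {τ ν ι : Type*} [Fintype τ] [Fintype ν] [Fintype ι] [DecidableEq ι]
    (r : τ → ι) (hr : Function.Injective r)
    (hcard : Fintype.card τ + Fintype.card ν = Fintype.card ι) :
    ∃ e : τ ⊕ ν ≃ ι, ∀ s, e (Sum.inl s) = r s := by
  classical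
  have h1 : Fintype.card {i // i ∈ Set.range r} = Fintype.card τ :=
    (Fintype.card_congr (Equiv.ofInjective r hr)).symm
  have h2 : Fintype.card {i // ¬ i ∈ Set.range r} = Fintype.card ν := by
    rw [Fintype.card_subtype_compl, h1]; omega
  let e1 : τ ≃ {i // i ∈ Set.range r} := Equiv.ofInjective r hr
  let e2 : ν ≃ {i // ¬ i ∈ Set.range r} := (Fintype.equivOfCardEq h2).symm
  refine ⟨(Equiv.sumCongr e1 e2).trans (Equiv.sumCompl _), ?_⟩
  intro s
  simp [e1]

section

variable {K : Type*} [Field K] {τ₁ τ₂ ν : Type*} [Fintype τ₁] [DecidableEq τ₁] [Fintype τ₂]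
  [DecidableEq τ₂] [Fintype ν] [DecidableEq ν]

/-- the diagonal positions carrying the parameters -/
def dg : τ₁ ⊕ τ₂ → Ix τ₁ τ₂ ν
  | Sum.inl s => Sum.inl s
  | Sum.inr s => Sum.inr (Sum.inl s)

lemma Mx_indep (u : τ₁ → ν → K) (v : τ₂ → ν → K) (x x' : τ₁ → K) (y y' : τ₂ → K)
    (r c : Ix τ₁ τ₂ ν) (h : ∀ s : τ₁ ⊕ τ₂, ¬ (r = dg s ∧ c = dg s)) :
    Mx (wtx u x) (wtx v y) r c = Mx (wtx u x') (wtx v y') r c := by
  unfold Mx
  congr 1
  · rcases r with s | r
    · unfold fa
      apply Finset.sum_congr rfl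
      intro o _
      cases o with
      | none =>
        have : ps1 (τ₂ := τ₂) (ν := ν) s none ≠ c := by
          intro h'
          exact h (Sum.inl s) ⟨rfl, h'.symm⟩
        rw [if_neg this, if_neg this]
      | some j => rfl
    · rfl
  · rcases c with s | (s | j)
    · simp [fb]
    · unfold fb
      apply Finset.sum_congr rfl
      intro o _
      cases o with
      | none =>
        have : ps2 (τ₁ := τ₁) (ν := ν) s none ≠ r := by
          intro h'
          exact h (Sum.inr s) ⟨h'.symm, rfl⟩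
        rw [if_neg this, if_neg this]
      | some j => rfl
    · simp [fb]

lemma Mt_dg (wa : τ₁ → Option ν → K) (wb : τ₂ → Option ν → K) (s : τ₁ ⊕ τ₂) :
    (Mt wa wb (dg s) (dg s)).snd = 0 := by
  rcases s with s | s <;> simp [Mt, dg, ee]

lemma Mt_indep (u : τ₁ → ν → K) (v : τ₂ → ν → K) (x x' : τ₁ → K) (y y' : τ₂ → K)
    (r c : Ix τ₁ τ₂ ν) (h : ∀ s : τ₁ ⊕ τ₂, ¬ (r = dg s ∧ c = dg s)) :
    Mt (wtx u x) (wtx v y) r c = Mt (wtx u x') (wtx v y') r c := by
  unfold Mt
  rw [Mx_indep u v x x' y y' r c h]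

end

/-- Generic permanent. -/
noncomputable def gperm (K : Type*) [Field K] (m : ℕ) : MvPolynomial (Fin m × Fin m) K :=
  (Matrix.of (fun i j : Fin m => (MvPolynomial.X (i, j) : MvPolynomial (Fin m × Fin m) K))).permanent

/-- The family of jets at which the permanent is evaluated. -/
theorem exists_jets (K : Type*) [Field K] [CharZero K] (m ℓ n' : ℕ) (hm : 2 * ℓ + n' = m)
    (hn : n' ≤ 2 ^ ℓ) (r c : Fin (2 * ℓ) → Fin m) (hr : Function.Injective r)
    (hc : Function.Injective c) :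
    ∃ (Ξ : Type) (P : (Ξ → K) → (Fin m × Fin m) → TrivSqZeroExt K (Fin n' × Fin n' → K)),
      (∀ ξ s, (P ξ (r s, c s)).snd = 0) ∧
      (∀ ξ ξ' v, (∀ s, v ≠ (r s, c s)) → P ξ v = P ξ' v) ∧
      (∀ A : Submodule K (Fin n' × Fin n' → K),
        (∀ ξ, (MvPolynomial.aeval (P ξ) (gperm K m)).snd ∈ A) → A = ⊤) := by
  classical
  -- index types
  let eF : Fin ℓ ⊕ Fin ℓ ≃ Fin (2 * ℓ) := finSumFinEquiv.trans (finCongr (by ring))
  obtain ⟨er, her⟩ := exists_equiv_extend (ν := Fin n') (r ∘ eF) (hr.comp eF.injective)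
    (by simp; omega)
  obtain ⟨ec, hec⟩ := exists_equiv_extend (ν := Fin n') (c ∘ eF) (hc.comp eF.injective)
    (by simp; omega)
  let Er : Ix (Fin ℓ) (Fin ℓ) (Fin n') ≃ Fin m := (Equiv.sumAssoc _ _ _).symm.trans er
  let Ec : Ix (Fin ℓ) (Fin ℓ) (Fin n') ≃ Fin m := (Equiv.sumAssoc _ _ _).symm.trans ec
  have hEr : ∀ s : Fin ℓ ⊕ Fin ℓ, Er (dg s) = r (eF s) := by
    intro s
    have := her s
    rcases s with s | s <;> exact this
  have hEc : ∀ s : Fin ℓ ⊕ Fin ℓ, Ec (dg s) = c (eF s) := by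
    intro s
    have := hec s
    rcases s with s | s <;> exact this
  -- code
  obtain ⟨code⟩ : Nonempty (Fin n' ↪ (Fin ℓ → Bool)) := by
    apply Function.Embedding.nonempty_of_card_le
    simpa using hn
  let u : Fin ℓ → Fin n' → K := fun s j => if code j s then (1 : K) else 0
  refine ⟨Fin ℓ ⊕ Fin ℓ, fun ξ v => Mt (wtx u (fun s => ξ (Sum.inl s))) (wtx u (fun s => ξ (Sum.inr s)))
    (Er.symm v.1) (Ec.symm v.2), ?_, ?_, ?_⟩
  · intro ξ s
    obtain ⟨s', rfl⟩ := eF.surjective s
    simp only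
    rw [← hEr, ← hEc, Equiv.symm_apply_apply, Equiv.symm_apply_apply]
    exact Mt_dg _ _ s'
  · intro ξ ξ' v hv
    apply Mt_indep
    rintro s ⟨h1, h2⟩
    apply hv (eF s)
    rw [Equiv.symm_apply_eq, hEr] at h1
    rw [Equiv.symm_apply_eq, hEc] at h2
    exact Prod.ext h1 h2
  · intro A hA
    apply span_perm (K := K) (ν := Fin n') (fun j => code j) code.injective (fun j => code j)
      code.injective
    intro x y
    have h := hA (Sum.elim x y)
    convert h using 2
    unfold gperm Matrix.permanent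
    rw [map_sum]
    simp only [map_prod, Matrix.of_apply, MvPolynomial.aeval_X, Sum.elim_inl, Sum.elim_inr]
    let E : Perm (Ix (Fin ℓ) (Fin ℓ) (Fin n')) ≃ Perm (Fin m) :=
      { toFun := fun σ => (Ec.symm.trans σ).trans Er
        invFun := fun π => (Ec.trans π).trans Er.symm
        left_inv := by intro σ; ext a; simp
        right_inv := by intro π; ext a; simp }
    rw [← Equiv.sum_comp E]
    apply Finset.sum_congr rfl
    intro σ _
    rw [← Equiv.prod_comp Ec]
    apply Finset.prod_congr rfl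
    intro a _
    simp [E, u]

end Pool.Agent.H567.Nec
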