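import Mathlib
import Pool.Agent.H567.Nec.Transfer
import Pool.Agent.H567.Nec.FormulaDef

set_option autoImplicit false
set_option linter.unusedSectionVars false

namespace Pool.Agent.H567.Nec

open Finset MvPolynomial

universe u v

namespace Formula

variable {K : Type u} {σ : Type v}

/-- The number of leaves labelled by a variable of `T`. -/
def occ [DecidableEq σ] (T : Finset σ) : Formula K σ → ℕ
  | var i => if i ∈ T then 1 else 0
  | const _ => 0
  | add f g => f.occ T + g.occ T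
  | mul f g => f.occ T + g.occ T

lemma sum_occ_le [DecidableEq σ] {β : Type*} (s : Finset β) (T : β → Finset σ)
    (hT : (s : Set β).PairwiseDisjoint T) (f : Formula K σ) : ∑ b ∈ s, f.occ (T b) ≤ f.size := by
  induction f with
  | var i =>
    simp only [occ, size]
    rw [Finset.sum_boole]
    simp only [Nat.cast_id]
    rw [Finset.card_le_one]
    intro a ha b hb
    simp only [mem_filter] at ha hb
    by_contra hab
    exact (Finset.disjoint_left.mp (hT ha.1 hb.1 hab)) ha.2 hb.2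
  | const c => simp [occ]
  | add f g hf hg =>
    simp only [occ, size, Finset.sum_add_distrib]
    omega
  | mul f g hf hg =>
    simp only [occ, size, Finset.sum_add_distrib]
    omega

variable [Field K] [DecidableEq σ] {Ξ ω : Type*}

lemma aeval_const_of_occ {T : Finset σ} {P : Ξ → σ → TrivSqZeroExt K (ω → K)}
    (hc : ∀ v, v ∉ T → ∀ ξ ξ', P ξ v = P ξ' v) (f : Formula K σ) (hf : f.occ T = 0) (ξ ξ' : Ξ) :
    aeval (P ξ) f.poly = aeval (P ξ') f.poly := by
  induction f with
  | var i =>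
    simp only [occ] at hf
    simp only [poly, aeval_X]
    apply hc
    intro hi
    rw [if_pos hi] at hf
    exact one_ne_zero hf
  | const c => simp [poly]
  | add f g ihf ihg =>
    simp only [occ] at hf
    simp only [poly, map_add]
    rw [ihf (by omega), ihg (by omega)]
  | mul f g ihf ihg =>
    simp only [occ] at hf
    simp only [poly, map_mul]
    rw [ihf (by omega), ihg (by omega)]

/-- combination of two subformulas which both contain variables of `T` -/
lemma combine_aux [Finite ω] {e e' : ℕ} (he : 1 ≤ e) (he' : 1 ≤ e') {F G H : Ξ → TrivSqZeroExt K (ω → K)}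
    (hF : ∃ (D : Submodule K (ω → K)) (c0 c1 : TrivSqZeroExt K (ω → K))
      (a : Ξ → TrivSqZeroExt K (ω → K)), Module.finrank K D ≤ 4 * e - 4 ∧ (∀ ξ, (a ξ).snd ∈ D) ∧
        ∀ ξ, F ξ = c0 + c1 * a ξ)
    (hG : ∃ (D : Submodule K (ω → K)) (c0 c1 : TrivSqZeroExt K (ω → K))
      (a : Ξ → TrivSqZeroExt K (ω → K)), Module.finrank K D ≤ 4 * e' - 4 ∧ (∀ ξ, (a ξ).snd ∈ D) ∧
        ∀ ξ, G ξ = c0 + c1 * a ξ)
    (hH : ∀ D : Submodule K (ω → K), (∀ ξ, (F ξ).snd ∈ D) → (∀ ξ, (G ξ).snd ∈ D) →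
      ∀ ξ, (H ξ).snd ∈ D) :
    ∃ (D : Submodule K (ω → K)) (c0 c1 : TrivSqZeroExt K (ω → K))
      (a : Ξ → TrivSqZeroExt K (ω → K)), Module.finrank K D ≤ 4 * (e + e') - 4 ∧
        (∀ ξ, (a ξ).snd ∈ D) ∧ ∀ ξ, H ξ = c0 + c1 * a ξ := by
  obtain ⟨D, c0, c1, a, hD, ha, hF⟩ := hF
  obtain ⟨D', c0', c1', a', hD', ha', hG⟩ := hG
  let S : Finset (ω → K) := by
    classical
    exact {c0.snd, c1.snd, c0'.snd, c1'.snd}
  have hS : S.card ≤ 4 := by
    classical
    exact Finset.card_le_four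
  refine ⟨(D ⊔ D') ⊔ Submodule.span K (S : Set (ω → K)), 0, 1, H, ?_, ?_, ?_⟩
  · have h1 : Module.finrank K (Submodule.span K (S : Set (ω → K))) ≤ 4 :=
      le_trans (finrank_span_finset_le_card S) hS
    have h2 := Submodule.finrank_add_le_finrank_add_finrank (D ⊔ D')
      (Submodule.span K (S : Set (ω → K)))
    have h3 := Submodule.finrank_add_le_finrank_add_finrank D D'
    omega
  · have hmem : ∀ z ∈ S, z ∈ (D ⊔ D') ⊔ Submodule.span K (S : Set (ω → K)) := fun z hz =>
      Submodule.mem_sup_right (Submodule.subset_span hz)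
    have hcs : c0.snd ∈ S ∧ c1.snd ∈ S ∧ c0'.snd ∈ S ∧ c1'.snd ∈ S := by
      classical
      simp [S]
    apply hH
    · intro ξ
      rw [hF ξ, TrivSqZeroExt.snd_add, TrivSqZeroExt.snd_mul]
      apply Submodule.add_mem _ (hmem _ hcs.1)
      apply Submodule.add_mem
      · exact Submodule.smul_mem _ _ (Submodule.mem_sup_left (Submodule.mem_sup_left (ha ξ)))
      · rw [op_smul_eq_smul]
        exact Submodule.smul_mem _ _ (hmem _ hcs.2.1)
    · intro ξ
      rw [hG ξ, TrivSqZeroExt.snd_add, TrivSqZeroExt.snd_mul]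
      apply Submodule.add_mem _ (hmem _ hcs.2.2.1)
      apply Submodule.add_mem
      · exact Submodule.smul_mem _ _ (Submodule.mem_sup_left (Submodule.mem_sup_right (ha' ξ)))
      · rw [op_smul_eq_smul]
        exact Submodule.smul_mem _ _ (hmem _ hcs.2.2.2)
  · intro ξ; simp

lemma exists_of_occ [Finite ω] {T : Finset σ} {P : Ξ → σ → TrivSqZeroExt K (ω → K)}
    (hT : ∀ v ∈ T, ∀ ξ, (P ξ v).snd = 0)
    (hc : ∀ v, v ∉ T → ∀ ξ ξ', P ξ v = P ξ' v) (f : Formula K σ) (hf : 1 ≤ f.occ T) [Nonempty Ξ] :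
    ∃ (D : Submodule K (ω → K)) (c0 c1 : TrivSqZeroExt K (ω → K))
      (a : Ξ → TrivSqZeroExt K (ω → K)), Module.finrank K D ≤ 4 * f.occ T - 4 ∧
        (∀ ξ, (a ξ).snd ∈ D) ∧ ∀ ξ, aeval (P ξ) f.poly = c0 + c1 * a ξ := by
  obtain ⟨ξ₀⟩ := (inferInstance : Nonempty Ξ)
  induction f with
  | var i =>
    simp only [occ] at hf ⊢
    by_cases hi : i ∈ T
    · rw [if_pos hi]
      refine ⟨⊥, 0, 1, fun ξ => P ξ i, by simp, ?_, ?_⟩
      · intro ξ; rw [hT i hi ξ]; exact Submodule.zero_mem _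
      · intro ξ; simp [poly]
    · rw [if_neg hi] at hf; omega
  | const c => simp [occ] at hf
  | add f g ihf ihg =>
    simp only [occ] at hf ⊢
    simp only [poly, map_add]
    by_cases h1 : f.occ T = 0
    · obtain ⟨D, c0, c1, a, hD, ha, hG⟩ := ihg (by omega)
      refine ⟨D, c0 + aeval (P ξ₀) f.poly, c1, a, by omega, ha, ?_⟩
      intro ξ
      rw [hG ξ, aeval_const_of_occ hc f h1 ξ ξ₀]; ring
    · by_cases h2 : g.occ T = 0
      · obtain ⟨D, c0, c1, a, hD, ha, hG⟩ := ihf (by omega)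
        refine ⟨D, c0 + aeval (P ξ₀) g.poly, c1, a, by omega, ha, ?_⟩
        intro ξ
        rw [hG ξ, aeval_const_of_occ hc g h2 ξ ξ₀]; ring
      · apply combine_aux (by omega) (by omega) (ihf (by omega)) (ihg (by omega))
        intro D hF hG ξ
        rw [TrivSqZeroExt.snd_add]
        exact Submodule.add_mem _ (hF ξ) (hG ξ)
  | mul f g ihf ihg =>
    simp only [occ] at hf ⊢
    simp only [poly, map_mul]
    by_cases h1 : f.occ T = 0
    · obtain ⟨D, c0, c1, a, hD, ha, hG⟩ := ihg (by omega)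
      refine ⟨D, c0 * aeval (P ξ₀) f.poly, c1 * aeval (P ξ₀) f.poly, a, by omega, ha, ?_⟩
      intro ξ
      rw [hG ξ, aeval_const_of_occ hc f h1 ξ ξ₀]; ring
    · by_cases h2 : g.occ T = 0
      · obtain ⟨D, c0, c1, a, hD, ha, hG⟩ := ihf (by omega)
        refine ⟨D, c0 * aeval (P ξ₀) g.poly, c1 * aeval (P ξ₀) g.poly, a, by omega, ha, ?_⟩
        intro ξ
        rw [hG ξ, aeval_const_of_occ hc g h2 ξ ξ₀]; ring
      · apply combine_aux (by omega) (by omega) (ihf (by omega)) (ihg (by omega))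
        intro D hF hG ξ
        rw [TrivSqZeroExt.snd_mul, op_smul_eq_smul]
        exact Submodule.add_mem _ (Submodule.smul_mem _ _ (hG ξ)) (Submodule.smul_mem _ _ (hF ξ))

/-- The jets of a formula with `e` leaves in `T` have their infinitesimal parts in a space of
dimension at most `4 e + 1`. -/
lemma exists_submodule [Finite ω] {T : Finset σ} {P : Ξ → σ → TrivSqZeroExt K (ω → K)}
    (hT : ∀ v ∈ T, ∀ ξ, (P ξ v).snd = 0)
    (hc : ∀ v, v ∉ T → ∀ ξ ξ', P ξ v = P ξ' v) (f : Formula K σ) :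
    ∃ D : Submodule K (ω → K), Module.finrank K D ≤ 4 * f.occ T + 1 ∧
      ∀ ξ, (aeval (P ξ) f.poly).snd ∈ D := by
  rcases isEmpty_or_nonempty Ξ with hΞ | hΞ
  · exact ⟨⊥, by simp, fun ξ => hΞ.elim ξ⟩
  obtain ⟨ξ₀⟩ := id hΞ
  by_cases h0 : f.occ T = 0
  · refine ⟨Submodule.span K {(aeval (P ξ₀) f.poly).snd}, ?_, ?_⟩
    · have := finrank_span_finset_le_card (R := K) ({(aeval (P ξ₀) f.poly).snd} : Finset (ω → K))
      rw [Finset.coe_singleton, Finset.card_singleton] at this
      exact le_trans this (by omega)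
    · intro ξ
      rw [aeval_const_of_occ hc f h0 ξ ξ₀]
      exact Submodule.mem_span_singleton_self _
  · obtain ⟨D, c0, c1, a, hD, ha, hG⟩ := exists_of_occ hT hc f (by omega)
    let S : Finset (ω → K) := by
      classical
      exact {c0.snd, c1.snd}
    have hS : S.card ≤ 2 := by
      classical
      exact Finset.card_le_two
    refine ⟨D ⊔ Submodule.span K (S : Set (ω → K)), ?_, ?_⟩
    · have h1 : Module.finrank K (Submodule.span K (S : Set (ω → K))) ≤ 2 :=
        le_trans (finrank_span_finset_le_card S) hS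
      have h2 := Submodule.finrank_add_le_finrank_add_finrank D
        (Submodule.span K (S : Set (ω → K)))
      omega
    · intro ξ
      have hmem : ∀ z ∈ S, z ∈ D ⊔ Submodule.span K (S : Set (ω → K)) := fun z hz =>
        Submodule.mem_sup_right (Submodule.subset_span hz)
      have hcs : c0.snd ∈ S ∧ c1.snd ∈ S := by
        classical
        simp [S]
      rw [hG ξ, TrivSqZeroExt.snd_add, TrivSqZeroExt.snd_mul]
      apply Submodule.add_mem _ (hmem _ hcs.1)
      apply Submodule.add_mem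
      · exact Submodule.smul_mem _ _ (Submodule.mem_sup_left (ha ξ))
      · rw [op_smul_eq_smul]
        exact Submodule.smul_mem _ _ (hmem _ hcs.2)

end Formula

end Pool.Agent.H567.Nec
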