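import Mathlib

set_option autoImplicit false

namespace Pool.Agent.H567.Nec

universe u v

/-- The label of a node of an arithmetic circuit with `N` nodes: a source carries a variable or a
constant, a gate is an addition or a multiplication and has two incoming edges, which come from the
nodes `l` and `r`. -/
inductive Node (K : Type u) (σ : Type v) (N : ℕ) : Type (max u v)
  | var (i : σ) : Node K σ N
  | const (c : K) : Node K σ N
  | add (l r : Fin N) : Node K σ N
  | mul (l r : Fin N) : Node K σ N

/-- The node from which the left (`false`) or right (`true`) incoming edge comes. -/
def Node.arg {K : Type u} {σ : Type v} {N : ℕ} : Node K σ N → Bool → Option (Fin N)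
  | .var _, _ => none
  | .const _, _ => none
  | .add l _, false => some l
  | .add _ r, true => some r
  | .mul l _, false => some l
  | .mul _ r, true => some r

/-- Is the node a gate? -/
def Node.IsGate {K : Type u} {σ : Type v} {N : ℕ} : Node K σ N → Prop
  | .var _ => False
  | .const _ => False
  | .add _ _ => True
  | .mul _ _ => True

/-- An arithmetic circuit: a finite directed acyclic graph, given with a numbering of its nodes for
which all edges go from smaller to larger numbers. -/
structure Circuit (K : Type u) (σ : Type v) where
  /-- the number of nodes -/
  N : ℕ
  /-- the labels -/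
  node : Fin N → Node K σ N
  /-- edges go from smaller to larger numbers -/
  lt : ∀ (i j : Fin N) (p : Bool), (node i).arg p = some j → j < i

namespace Circuit

variable {K : Type u} {σ : Type v}

/-- The polynomial computed at a node. -/
noncomputable def value [Field K] (Φ : Circuit K σ) (i : Fin Φ.N) : MvPolynomial σ K :=
  match h : Φ.node i with
  | .var v => MvPolynomial.X v
  | .const c => MvPolynomial.C c
  | .add l r => Φ.value l + Φ.value r
  | .mul l r => Φ.value l * Φ.value r
termination_by i.1
decreasing_by
  · exact Φ.lt i l false (by rw [h]; rfl)
  · exact Φ.lt i r true (by rw [h]; rfl)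
  · exact Φ.lt i l false (by rw [h]; rfl)
  · exact Φ.lt i r true (by rw [h]; rfl)

/-- The size of a circuit is the number of its gates. -/
noncomputable def size (Φ : Circuit K σ) : ℕ := by
  classical exact (Finset.univ.filter (fun i => (Φ.node i).IsGate)).card

/-- There is an edge from `a` to `b`. -/
def Edge (Φ : Circuit K σ) (a b : Fin Φ.N) : Prop := ∃ p, (Φ.node b).arg p = some a

/-- `a` lies in the sub-circuit feeding into `u`: there is a directed path from `a` to `u`. -/
def Sub (Φ : Circuit K σ) (u a : Fin Φ.N) : Prop := Relation.ReflTransGen Φ.Edge a u

/-- Weakly skew: for every multiplication gate `g`, one of its two incoming edges `p`, coming from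
the node `u` say, has the property that every other edge of the circuit which leaves a node of the
sub-circuit of `u` ends in this sub-circuit. Hence removing the edge `p` disconnects the sub-circuit
of `u` from the rest of the circuit. -/
def WeaklySkew (Φ : Circuit K σ) : Prop :=
  ∀ g l r, Φ.node g = Node.mul l r → ∃ (p : Bool) (u : Fin Φ.N), (Φ.node g).arg p = some u ∧
    ∀ (a b : Fin Φ.N) (q : Bool), Φ.Sub u a → (Φ.node b).arg q = some a → (b, q) ≠ (g, p) →
      Φ.Sub u b

end Circuit

end Pool.Agent.H567.Nec
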