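import Mathlib
import Pool.Agent.H567.Nec.Transfer

set_option autoImplicit false
set_option linter.unusedSectionVars false

namespace Pool.Agent.H567.Nec

open Finset

variable {K : Type*} [Field K] {ω Ξ : Type*} [Finite ω]

/-- A set `F` of jet-valued functions which lie in the module generated (over the constants) by the
constant `1` and at most `e` functions whose infinitesimal parts lie in a small space. -/
def Good (e : ℕ) (F : Set (Ξ → TrivSqZeroExt K (ω → K))) : Prop :=
  ∃ (ι : Type) (_ : Fintype ι) (a : ι → Ξ → TrivSqZeroExt K (ω → K)) (D : Submodule K (ω → K)),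
    Fintype.card ι ≤ e ∧ 2 * Module.finrank K D ≤ e * (e + 1) - 2 ∧ (∀ i ξ, (a i ξ).snd ∈ D) ∧
    ∀ f ∈ F, ∃ (c0 : TrivSqZeroExt K (ω → K)) (c : ι → TrivSqZeroExt K (ω → K)),
      ∀ ξ, f ξ = c0 + ∑ i, c i * a i ξ

lemma Good.mono {e : ℕ} {F F' : Set (Ξ → TrivSqZeroExt K (ω → K))} (h : Good e F) (hF : F' ⊆ F) :
    Good e F' := by
  obtain ⟨ι, hι, a, D, h1, h2, h3, h4⟩ := h
  exact ⟨ι, hι, a, D, h1, h2, h3, fun f hf => h4 f (hF hf)⟩

lemma Good.le_of_le {e e' : ℕ} {F : Set (Ξ → TrivSqZeroExt K (ω → K))} (he : e ≤ e')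
    (h : Good e F) : Good e' F := by
  obtain ⟨ι, hι, a, D, h1, h2, h3, h4⟩ := h
  refine ⟨ι, hι, a, D, le_trans h1 he, le_trans h2 ?_, h3, h4⟩
  apply Nat.sub_le_sub_right
  exact Nat.mul_le_mul he (by omega)

lemma good_empty : Good 0 (∅ : Set (Ξ → TrivSqZeroExt K (ω → K))) :=
  ⟨Empty, inferInstance, fun i => i.elim, ⊥, by simp, by simp, fun i => i.elim, by simp⟩

lemma Good.const {e : ℕ} {F : Set (Ξ → TrivSqZeroExt K (ω → K))} (h : Good e F)
    (f : Ξ → TrivSqZeroExt K (ω → K)) (c : TrivSqZeroExt K (ω → K)) (hf : ∀ ξ, f ξ = c) :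
    Good e (insert f F) := by
  obtain ⟨ι, hι, a, D, h1, h2, h3, h4⟩ := h
  refine ⟨ι, hι, a, D, h1, h2, h3, ?_⟩
  intro g hg
  rcases hg with rfl | hg
  · exact ⟨c, 0, by intro ξ; simp [hf ξ]⟩
  · exact h4 g hg

lemma Good.add {e : ℕ} {F : Set (Ξ → TrivSqZeroExt K (ω → K))} (h : Good e F)
    {f g : Ξ → TrivSqZeroExt K (ω → K)} (hf : f ∈ F) (hg : g ∈ F)
    (k : Ξ → TrivSqZeroExt K (ω → K)) (hk : ∀ ξ, k ξ = f ξ + g ξ) : Good e (insert k F) := by
  obtain ⟨ι, hι, a, D, h1, h2, h3, h4⟩ := h
  refine ⟨ι, hι, a, D, h1, h2, h3, ?_⟩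
  intro g' hg'
  rcases hg' with rfl | hg'
  · obtain ⟨c0, c, hc⟩ := h4 f hf
    obtain ⟨c0', c', hc'⟩ := h4 g hg
    refine ⟨c0 + c0', c + c', ?_⟩
    intro ξ
    rw [hk, hc, hc']
    simp only [Pi.add_apply, add_mul, Finset.sum_add_distrib]
    ring
  · exact h4 g' hg'

lemma Good.var {e : ℕ} {F : Set (Ξ → TrivSqZeroExt K (ω → K))} (h : Good e F)
    (f : Ξ → TrivSqZeroExt K (ω → K)) (hf : ∀ ξ, (f ξ).snd = 0) : Good (e + 1) (insert f F) := by
  obtain ⟨ι, hι, a, D, h1, h2, h3, h4⟩ := h
  refine ⟨Option ι, inferInstance, fun o => o.elim f a, D, ?_, ?_, ?_, ?_⟩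
  · rw [Fintype.card_option]; omega
  · have : e * (e + 1) - 2 ≤ (e + 1) * (e + 1 + 1) - 2 := by
      apply Nat.sub_le_sub_right
      nlinarith
    omega
  · intro o ξ
    cases o with
    | none => simp only [Option.elim]; rw [hf]; exact D.zero_mem
    | some i => exact h3 i ξ
  · intro g hg
    rcases hg with rfl | hg
    · refine ⟨0, fun o => o.elim 1 (fun _ => 0), ?_⟩
      intro ξ
      simp [Fintype.sum_option]
    · obtain ⟨c0, c, hc⟩ := h4 g hg
      refine ⟨c0, fun o => o.elim 0 c, ?_⟩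
      intro ξ
      simp [Fintype.sum_option, hc ξ]

lemma Good.mul {e e' : ℕ} {F F' : Set (Ξ → TrivSqZeroExt K (ω → K))} (h : Good e F)
    (h' : Good e' F') {f g : Ξ → TrivSqZeroExt K (ω → K)} (hf : f ∈ F) (hg : g ∈ F')
    (k : Ξ → TrivSqZeroExt K (ω → K)) (hk : ∀ ξ, k ξ = f ξ * g ξ) :
    Good (e + e') (insert k F) := by
  obtain ⟨ι, hι, a, D, h1, h2, h3, h4⟩ := h
  obtain ⟨ι', hι', a', D', h1', h2', h3', h4'⟩ := h'
  obtain ⟨c0, c, hc⟩ := h4 f hf
  obtain ⟨c0', c', hc'⟩ := h4' g hg
  rcases Nat.eq_zero_or_pos e with he | he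
  · -- all functions in `F` are constant
    subst he
    have hι0 : IsEmpty ι := Fintype.card_eq_zero_iff.mp (by omega)
    refine ⟨ι', hι', a', D', by omega, by simpa using h2', h3', ?_⟩
    intro g' hg'
    rcases hg' with rfl | hg'
    · refine ⟨c0 * c0', fun i => c0 * c' i, ?_⟩
      intro ξ
      rw [hk, hc, hc']
      simp only [Finset.univ_eq_empty, Finset.sum_empty, add_zero]
      rw [mul_add, Finset.mul_sum]
      congr 1
      apply Finset.sum_congr rfl
      intro i _
      ring
    · obtain ⟨d0, d, hd⟩ := h4 g' hg'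
      refine ⟨d0, 0, ?_⟩
      intro ξ
      rw [hd]
      simp
  rcases Nat.eq_zero_or_pos e' with he' | he'
  · subst he'
    have hι0 : IsEmpty ι' := Fintype.card_eq_zero_iff.mp (by omega)
    refine ⟨ι, hι, a, D, by omega, by simpa using h2, h3, ?_⟩
    intro g' hg'
    rcases hg' with rfl | hg'
    · refine ⟨c0 * c0', fun i => c0' * c i, ?_⟩
      intro ξ
      rw [hk, hc, hc']
      simp only [Finset.univ_eq_empty, Finset.sum_empty, add_zero]
      rw [add_mul, Finset.sum_mul]
      congr 1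
      apply Finset.sum_congr rfl
      intro i _
      ring
    · exact h4 g' hg'
  -- the main case
  classical
  let S : Finset (ω → K) := insert c0.snd (univ.image (fun i => (c i).snd))
  have hS : S.card ≤ e + 1 := by
    refine le_trans (Finset.card_insert_le _ _) ?_
    have : (univ.image (fun i => (c i).snd)).card ≤ Fintype.card ι := Finset.card_image_le
    omega
  let D2 : Submodule K (ω → K) := (D ⊔ D') ⊔ Submodule.span K (S : Set (ω → K))
  have hDD2 : D ≤ D2 := le_trans le_sup_left le_sup_left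
  have hD'D2 : D' ≤ D2 := le_trans le_sup_right le_sup_left
  have hfD2 : ∀ ξ, (f ξ).snd ∈ D2 := by
    intro ξ
    rw [hc ξ, TrivSqZeroExt.snd_add, TrivSqZeroExt.snd_sum]
    apply Submodule.add_mem
    · apply Submodule.mem_sup_right
      apply Submodule.subset_span
      exact Finset.mem_coe.mpr (Finset.mem_insert_self _ _)
    · apply Submodule.sum_mem
      intro i _
      rw [TrivSqZeroExt.snd_mul, op_smul_eq_smul]
      apply Submodule.add_mem
      · exact Submodule.smul_mem _ _ (hDD2 (h3 i ξ))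
      · apply Submodule.smul_mem
        apply Submodule.mem_sup_right
        apply Submodule.subset_span
        exact Finset.mem_coe.mpr (Finset.mem_insert_of_mem
          (Finset.mem_image_of_mem _ (Finset.mem_univ i)))
  refine ⟨ι ⊕ ι', inferInstance, Sum.elim a (fun i ξ => f ξ * a' i ξ), D2, ?_, ?_, ?_, ?_⟩
  · rw [Fintype.card_sum]; omega
  · have e1 : Module.finrank K (Submodule.span K (S : Set (ω → K))) ≤ e + 1 :=
      le_trans (finrank_span_finset_le_card S) hS
    have e2 := Submodule.finrank_add_le_finrank_add_finrank (D ⊔ D')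
      (Submodule.span K (S : Set (ω → K)))
    have e3 := Submodule.finrank_add_le_finrank_add_finrank D D'
    have e4 : Module.finrank K D2 ≤ Module.finrank K D + Module.finrank K D' + (e + 1) := by
      change Module.finrank K ((D ⊔ D') ⊔ Submodule.span K (S : Set (ω → K)) : Submodule K (ω → K)) ≤ _
      omega
    have e5 : (e + e') * (e + e' + 1) = e * (e + 1) + e' * (e' + 1) + 2 * (e * e') := by ring
    have e6 : e ≤ e * e' := Nat.le_mul_of_pos_right e he'
    have e7 : 2 ≤ e * (e + 1) := by nlinarith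
    have e8 : 2 ≤ e' * (e' + 1) := by nlinarith
    omega
  · intro i ξ
    cases i with
    | inl i => exact hDD2 (h3 i ξ)
    | inr i =>
      simp only [Sum.elim_inr]
      rw [TrivSqZeroExt.snd_mul, op_smul_eq_smul]
      exact Submodule.add_mem _ (Submodule.smul_mem _ _ (hD'D2 (h3' i ξ)))
        (Submodule.smul_mem _ _ (hfD2 ξ))
  · intro g' hg'
    rcases hg' with rfl | hg'
    · refine ⟨c0 * c0', Sum.elim (fun i => c0' * c i) (fun i => c' i), ?_⟩
      intro ξ
      rw [hk, hc']
      simp only [Fintype.sum_sum_type, Sum.elim_inl, Sum.elim_inr]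
      rw [mul_add, Finset.mul_sum]
      have : f ξ * c0' = c0 * c0' + ∑ i, c0' * c i * a i ξ := by
        rw [hc, add_mul, Finset.sum_mul]
        congr 1
        apply Finset.sum_congr rfl
        intro i _
        ring
      rw [this, add_assoc]
      congr 2
      apply Finset.sum_congr rfl
      intro i _
      ring
    · obtain ⟨d0, d, hd⟩ := h4 g' hg'
      refine ⟨d0, Sum.elim d 0, ?_⟩
      intro ξ
      rw [hd]
      simp [Fintype.sum_sum_type]

/-- The infinitesimal parts of a good function lie in a space of dimension at most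
`(e + 1) (e + 2) / 2`. -/
lemma Good.exists_submodule {e : ℕ} {F : Set (Ξ → TrivSqZeroExt K (ω → K))} (h : Good e F)
    {f : Ξ → TrivSqZeroExt K (ω → K)} (hf : f ∈ F) :
    ∃ D : Submodule K (ω → K), 2 * Module.finrank K D ≤ (e + 1) * (e + 2) ∧ ∀ ξ, (f ξ).snd ∈ D := by
  classical
  obtain ⟨ι, hι, a, D, h1, h2, h3, h4⟩ := h
  obtain ⟨c0, c, hc⟩ := h4 f hf
  let S : Finset (ω → K) := insert c0.snd (univ.image (fun i => (c i).snd))
  have hS : S.card ≤ e + 1 := by
    refine le_trans (Finset.card_insert_le _ _) ?_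
    have : (univ.image (fun i => (c i).snd)).card ≤ Fintype.card ι := Finset.card_image_le
    omega
  refine ⟨D ⊔ Submodule.span K (S : Set (ω → K)), ?_, ?_⟩
  · have e1 : Module.finrank K (Submodule.span K (S : Set (ω → K))) ≤ e + 1 :=
      le_trans (finrank_span_finset_le_card S) hS
    have e2 := Submodule.finrank_add_le_finrank_add_finrank D
      (Submodule.span K (S : Set (ω → K)))
    have e3 : (e + 1) * (e + 2) = e * (e + 1) + 2 * (e + 1) := by ring
    rcases Nat.eq_zero_or_pos e with he | he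
    · subst he
      have h20 : Module.finrank K D = 0 := by omega
      omega
    · have e7 : 2 ≤ e * (e + 1) := by nlinarith
      omega
  · intro ξ
    rw [hc ξ, TrivSqZeroExt.snd_add, TrivSqZeroExt.snd_sum]
    apply Submodule.add_mem
    · apply Submodule.mem_sup_right
      apply Submodule.subset_span
      exact Finset.mem_coe.mpr (Finset.mem_insert_self _ _)
    · apply Submodule.sum_mem
      intro i _
      rw [TrivSqZeroExt.snd_mul, op_smul_eq_smul]
      apply Submodule.add_mem
      · exact Submodule.smul_mem _ _ (Submodule.mem_sup_left (h3 i ξ))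
      · apply Submodule.smul_mem
        apply Submodule.mem_sup_right
        apply Submodule.subset_span
        exact Finset.mem_coe.mpr (Finset.mem_insert_of_mem
          (Finset.mem_image_of_mem _ (Finset.mem_univ i)))

end Pool.Agent.H567.Nec
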