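import Mathlib
import Pool.Agent.H567.Nec.Good
import Pool.Agent.H567.Nec.CircuitDef

set_option autoImplicit false
set_option linter.unusedSectionVars false

namespace Pool.Agent.H567.Nec

open Finset

namespace Circuit

universe u v

variable {K : Type u} {σ : Type v}

lemma value_var [Field K] (Φ : Circuit K σ) {i : Fin Φ.N} {v : σ} (h : Φ.node i = Node.var v) :
    Φ.value i = MvPolynomial.X v := by
  rw [Circuit.value]
  split
  · rename_i h'; rw [h] at h'; injection h' with h'; rw [h']
  all_goals (rename_i h'; rw [h] at h'; cases h')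

lemma value_const [Field K] (Φ : Circuit K σ) {i : Fin Φ.N} {c : K} (h : Φ.node i = Node.const c) :
    Φ.value i = MvPolynomial.C c := by
  rw [Circuit.value]
  split
  · rename_i h'; rw [h] at h'; cases h'
  · rename_i h'; rw [h] at h'; injection h' with h'; rw [h']
  all_goals (rename_i h'; rw [h] at h'; cases h')

lemma value_add [Field K] (Φ : Circuit K σ) {i l r : Fin Φ.N} (h : Φ.node i = Node.add l r) :
    Φ.value i = Φ.value l + Φ.value r := by
  rw [Circuit.value]
  split
  · rename_i h'; rw [h] at h'; cases h'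
  · rename_i h'; rw [h] at h'; cases h'
  · rename_i h'; rw [h] at h'; injection h' with h1 h2; rw [h1, h2]
  all_goals (rename_i h'; rw [h] at h'; cases h')

lemma value_mul [Field K] (Φ : Circuit K σ) {i l r : Fin Φ.N} (h : Φ.node i = Node.mul l r) :
    Φ.value i = Φ.value l * Φ.value r := by
  rw [Circuit.value]
  split
  · rename_i h'; rw [h] at h'; cases h'
  · rename_i h'; rw [h] at h'; cases h'
  · rename_i h'; rw [h] at h'; cases h'
  · rename_i h'; rw [h] at h'; injection h' with h1 h2; rw [h1, h2]

lemma Sub.le {Φ : Circuit K σ} {u a : Fin Φ.N} (h : Φ.Sub u a) : a ≤ u := by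
  unfold Sub at h
  induction h with
  | refl => exact le_rfl
  | tail _ hbc ih =>
    obtain ⟨p, hp⟩ := hbc
    exact le_trans ih (le_of_lt (Φ.lt _ _ p hp))

lemma Sub.trans {Φ : Circuit K σ} {a b c : Fin Φ.N} (h : Φ.Sub b a) (h' : Φ.Sub c b) :
    Φ.Sub c a := Relation.ReflTransGen.trans h h'

lemma Sub.refl (Φ : Circuit K σ) (a : Fin Φ.N) : Φ.Sub a a := Relation.ReflTransGen.refl

lemma Sub.of_edge {Φ : Circuit K σ} {a b : Fin Φ.N} {p : Bool} (h : (Φ.node b).arg p = some a) :
    Φ.Sub b a := Relation.ReflTransGen.single ⟨p, h⟩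

/-- A choice of the closed side for each multiplication gate. -/
structure Choice (Φ : Circuit K σ) where
  /-- the closed side -/
  side : Fin Φ.N → Bool
  closed : ∀ g l r, Φ.node g = Node.mul l r → ∀ u, (Φ.node g).arg (side g) = some u →
    ∀ (a b : Fin Φ.N) (q : Bool), Φ.Sub u a → (Φ.node b).arg q = some a → (b, q) ≠ (g, side g) →
      Φ.Sub u b

lemma WeaklySkew.exists_choice {Φ : Circuit K σ} (h : Φ.WeaklySkew) : Nonempty Φ.Choice := by
  classical
  have : ∀ g, ∃ p : Bool, ∀ l r, Φ.node g = Node.mul l r → ∀ u, (Φ.node g).arg p = some u →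
    ∀ (a b : Fin Φ.N) (q : Bool), Φ.Sub u a → (Φ.node b).arg q = some a → (b, q) ≠ (g, p) →
      Φ.Sub u b := by
    intro g
    by_cases hg : ∃ l r, Φ.node g = Node.mul l r
    · obtain ⟨l, r, hg⟩ := hg
      obtain ⟨p, u, hu, h2⟩ := h g l r hg
      refine ⟨p, ?_⟩
      intro l' r' _ u' hu'
      rw [hu] at hu'
      injection hu' with hu'
      subst hu'
      exact h2
    · exact ⟨false, fun l r hlr => absurd ⟨l, r, hlr⟩ hg⟩
  choose side hside using this
  exact ⟨⟨side, hside⟩⟩

variable {Φ : Circuit K σ}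

/-- `a` lies in the closed sub-circuit of the multiplication gate `g` -/
def InC (χ : Φ.Choice) (g a : Fin Φ.N) : Prop :=
  (∃ l r, Φ.node g = Node.mul l r) ∧ ∃ u, (Φ.node g).arg (χ.side g) = some u ∧ Φ.Sub u a

lemma InC.edge {χ : Φ.Choice} {g a b : Fin Φ.N} {q : Bool} (h : InC χ g a)
    (hb : (Φ.node b).arg q = some a) : (b, q) = (g, χ.side g) ∨ InC χ g b := by
  by_cases hne : (b, q) = (g, χ.side g)
  · exact Or.inl hne
  · right
    obtain ⟨⟨l, r, hg⟩, u, hu, ha⟩ := h
    exact ⟨⟨l, r, hg⟩, u, hu, χ.closed g l r hg u hu a b q ha hb hne⟩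

lemma InC.lt {χ : Φ.Choice} {g a : Fin Φ.N} (h : InC χ g a) : a < g := by
  obtain ⟨_, u, hu, ha⟩ := h
  exact lt_of_le_of_lt ha.le (Φ.lt _ _ _ hu)

/-- reusable nodes of the sub-circuit of `r` -/
def Reu (χ : Φ.Choice) (r a : Fin Φ.N) : Prop :=
  Φ.Sub r a ∧ ∀ g, Φ.Sub r g → ¬ InC χ g a

lemma Reu.self (χ : Φ.Choice) (r : Fin Φ.N) : Reu χ r r :=
  ⟨Sub.refl Φ r, fun _ hg hc => absurd (InC.lt hc) (not_lt.mpr hg.le)⟩

lemma Reu.arg {χ : Φ.Choice} {r k a : Fin Φ.N} {q : Bool} (hk : Reu χ r k)
    (ha : (Φ.node k).arg q = some a)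
    (hq : ¬ ((∃ l r', Φ.node k = Node.mul l r') ∧ q = χ.side k)) : Reu χ r a := by
  refine ⟨Sub.trans (Sub.of_edge ha) hk.1, ?_⟩
  intro g hg hc
  rcases hc.edge ha with h | h
  · injection h with h1 h2
    subst h1
    exact hq ⟨hc.1, h2⟩
  · exact hk.2 g hg h

lemma InC.disjoint {χ : Φ.Choice} {r g k a : Fin Φ.N} (hg : Reu χ r g) (hk : Reu χ r k)
    (hne : g ≠ k) (h1 : InC χ g a) (h2 : InC χ k a) : False := by
  obtain ⟨hmk, u, hu, hau⟩ := h2
  have key : InC χ g u ∨ Φ.Sub u g := by
    unfold Sub at hau
    have : ∀ b, Relation.ReflTransGen Φ.Edge a b → InC χ g b ∨ Φ.Sub b g := by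
      intro b hb
      induction hb with
      | refl => exact Or.inl h1
      | tail _ hbc ih =>
        obtain ⟨q, hq⟩ := hbc
        rcases ih with ih | ih
        · rcases ih.edge hq with h | h
          · injection h with h3 h4
            subst h3
            exact Or.inr (Sub.refl Φ _)
          · exact Or.inl h
        · exact Or.inr (Sub.trans ih (Sub.of_edge hq))
    exact this u hau
  rcases key with h | h
  · rcases h.edge hu with h3 | h3
    · injection h3 with h4 h5
      exact hne h4.symm
    · exact hk.2 g hg.1 h3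
  · exact hg.2 k hk.1 ⟨hmk, u, hu, h⟩

section main

variable [Field K] {Ξ ω : Type*} [Finite ω] [DecidableEq σ]

/-- the jet-valued function of a node -/
noncomputable def jet (P : Ξ → σ → TrivSqZeroExt K (ω → K)) (a : Fin Φ.N) :
    Ξ → TrivSqZeroExt K (ω → K) := fun ξ => MvPolynomial.aeval (P ξ) (Φ.value a)

/-- sources labelled by a variable of `T` -/
def TSrc (Φ : Circuit K σ) (T : Finset σ) (a : Fin Φ.N) : Prop :=
  ∃ v ∈ T, Φ.node a = Node.var v

open Classical in
lemma good_sub (χ : Φ.Choice) {T : Finset σ} {P : Ξ → σ → TrivSqZeroExt K (ω → K)}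
    (hT : ∀ v ∈ T, ∀ ξ, (P ξ v).snd = 0)
    (hc : ∀ v, v ∉ T → ∀ ξ ξ', P ξ v = P ξ' v) [Nonempty Ξ] (r : Fin Φ.N) :
    Good (univ.filter (fun a => Φ.Sub r a ∧ TSrc Φ T a)).card
      {f | ∃ a, Reu χ r a ∧ f = jet P a} := by
  obtain ⟨ξ₀⟩ := (inferInstance : Nonempty Ξ)
  induction r using WellFoundedLT.induction with
  | ind r ihr =>
  -- process the nodes in order
  have key : ∀ n : ℕ, n ≤ Φ.N →
      Good (univ.filter (fun a => ((a.1 < n ∧ Reu χ r a) ∨ ∃ g : Fin Φ.N, g.1 < n ∧ Reu χ r g ∧
        InC χ g a) ∧ TSrc Φ T a)).card {f | ∃ a : Fin Φ.N, a.1 < n ∧ Reu χ r a ∧ f = jet P a} := by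
    intro n
    induction n with
    | zero =>
      intro _
      have e1 : {f | ∃ a : Fin Φ.N, a.1 < 0 ∧ Reu χ r a ∧ f = jet P a} =
          (∅ : Set (Ξ → TrivSqZeroExt K (ω → K))) := by
        ext f; simp
      have e2 : (univ.filter (fun a : Fin Φ.N => ((a.1 < 0 ∧ Reu χ r a) ∨ ∃ g : Fin Φ.N, g.1 < 0 ∧
          Reu χ r g ∧ InC χ g a) ∧ TSrc Φ T a)) = ∅ := by
        ext f; simp
      rw [e1, e2]
      exact good_empty
    | succ n ihn =>
      intro hn
      have ih := ihn (by omega)
      set k : Fin Φ.N := ⟨n, by omega⟩ with hk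
      have hlt : ∀ a : Fin Φ.N, a.1 < n + 1 ↔ a.1 < n ∨ a = k := by
        intro a
        constructor
        · intro h
          rcases Nat.lt_succ_iff_lt_or_eq.mp h with h | h
          · exact Or.inl h
          · exact Or.inr (Fin.ext h)
        · rintro (h | h)
          · omega
          · rw [h]; simp [hk]
      by_cases hR : Reu χ r k
      · -- `k` is reusable
        have hF : {f | ∃ a : Fin Φ.N, a.1 < n + 1 ∧ Reu χ r a ∧ f = jet P a} =
            insert (jet P k) {f | ∃ a : Fin Φ.N, a.1 < n ∧ Reu χ r a ∧ f = jet P a} := by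
          ext f
          constructor
          · rintro ⟨a, ha, hra, rfl⟩
            rcases (hlt a).mp ha with h | h
            · exact Or.inr ⟨a, h, hra, rfl⟩
            · rw [h]; exact Or.inl rfl
          · rintro (rfl | ⟨a, ha, hra, rfl⟩)
            · exact ⟨k, (hlt k).mpr (Or.inr rfl), hR, rfl⟩
            · exact ⟨a, by omega, hra, rfl⟩
        rw [hF]
        -- membership of reusable arguments
        have harg : ∀ (q : Bool) (a : Fin Φ.N), (Φ.node k).arg q = some a →
            ¬ ((∃ l r', Φ.node k = Node.mul l r') ∧ q = χ.side k) →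
            jet P a ∈ {f | ∃ a : Fin Φ.N, a.1 < n ∧ Reu χ r a ∧ f = jet P a} := by
          intro q a ha hq
          refine ⟨a, ?_, hR.arg ha hq, rfl⟩
          have := Φ.lt _ _ _ ha
          exact this
        -- the new set of sources contains the old one
        have hsub : (univ.filter (fun a : Fin Φ.N => ((a.1 < n ∧ Reu χ r a) ∨ ∃ g : Fin Φ.N,
            g.1 < n ∧ Reu χ r g ∧ InC χ g a) ∧ TSrc Φ T a)) ⊆
            (univ.filter (fun a : Fin Φ.N => ((a.1 < n + 1 ∧ Reu χ r a) ∨ ∃ g : Fin Φ.N,
            g.1 < n + 1 ∧ Reu χ r g ∧ InC χ g a) ∧ TSrc Φ T a)) := by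
          intro a ha
          simp only [mem_filter, mem_univ, true_and] at ha ⊢
          refine ⟨?_, ha.2⟩
          rcases ha.1 with h | ⟨g, h1, h2, h3⟩
          · exact Or.inl ⟨by omega, h.2⟩
          · exact Or.inr ⟨g, by omega, h2, h3⟩
        cases hnode : Φ.node k with
        | var v =>
          by_cases hv : v ∈ T
          · have h1 := ih.var (jet P k) (by
              intro ξ
              simp only [jet, value_var Φ hnode, MvPolynomial.aeval_X]
              exact hT v hv ξ)
            refine Good.le_of_le ?_ h1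
            have : insert k (univ.filter (fun a : Fin Φ.N => ((a.1 < n ∧ Reu χ r a) ∨ ∃ g : Fin Φ.N,
              g.1 < n ∧ Reu χ r g ∧ InC χ g a) ∧ TSrc Φ T a)) ⊆
              (univ.filter (fun a : Fin Φ.N => ((a.1 < n + 1 ∧ Reu χ r a) ∨ ∃ g : Fin Φ.N,
              g.1 < n + 1 ∧ Reu χ r g ∧ InC χ g a) ∧ TSrc Φ T a)) := by
              intro a ha
              rcases Finset.mem_insert.mp ha with rfl | ha
              · simp only [mem_filter, mem_univ, true_and]
                exact ⟨Or.inl ⟨by simp [hk], hR⟩, v, hv, hnode⟩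
              · exact hsub ha
            have h2 := Finset.card_le_card this
            rwa [Finset.card_insert_of_notMem] at h2
            simp only [mem_filter, mem_univ, true_and, not_and]
            rintro (h | ⟨g, _, h2, h3⟩) _
            · simp [hk] at h
            · exact hR.2 g h2.1 h3
          · refine Good.le_of_le (Finset.card_le_card hsub) (ih.const (jet P k) (P ξ₀ v) ?_)
            intro ξ
            simp only [jet, value_var Φ hnode, MvPolynomial.aeval_X]
            exact hc v hv ξ ξ₀
        | const c =>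
          refine Good.le_of_le (Finset.card_le_card hsub)
            (ih.const (jet P k) (algebraMap K _ c) ?_)
          intro ξ
          simp only [jet, value_const Φ hnode, MvPolynomial.aeval_C]
        | add l r' =>
          refine Good.le_of_le (Finset.card_le_card hsub) (ih.add
            (harg false l (by rw [hnode]; rfl) (by rw [hnode]; rintro ⟨⟨_, _, h⟩, _⟩; cases h))
            (harg true r' (by rw [hnode]; rfl) (by rw [hnode]; rintro ⟨⟨_, _, h⟩, _⟩; cases h))
            (jet P k) ?_)
          intro ξ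
          simp only [jet, value_add Φ hnode, map_add]
        | mul l r' =>
          -- closed argument `u`, other argument `o`
          obtain ⟨u, o, hu, ho, hval⟩ : ∃ u o : Fin Φ.N, (Φ.node k).arg (χ.side k) = some u ∧
              (Φ.node k).arg (!(χ.side k)) = some o ∧
              Φ.value k = Φ.value o * Φ.value u := by
            cases hs : χ.side k with
            | false =>
              refine ⟨l, r', by rw [hnode]; rfl, by rw [hnode]; rfl, ?_⟩
              rw [value_mul Φ hnode, mul_comm]
            | true =>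
              refine ⟨r', l, by rw [hnode]; rfl, by rw [hnode]; rfl, ?_⟩
              rw [value_mul Φ hnode]
          have huk : u < k := Φ.lt _ _ _ hu
          have hkr : k ≤ r := hR.1.le
          have h1 := ihr u (lt_of_lt_of_le huk hkr)
          have h2 := ih.mul h1 (harg _ o ho (by rintro ⟨_, h⟩; cases hs : χ.side k <;> simp [hs] at h))
            ⟨u, Reu.self χ u, rfl⟩ (jet P k) (by
              intro ξ
              simp only [jet, hval, map_mul])
          refine Good.le_of_le ?_ h2
          have hmul : ∃ l r', Φ.node k = Node.mul l r' := ⟨l, r', hnode⟩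
          have hdis : Disjoint (univ.filter (fun a : Fin Φ.N => ((a.1 < n ∧ Reu χ r a) ∨
              ∃ g : Fin Φ.N, g.1 < n ∧ Reu χ r g ∧ InC χ g a) ∧ TSrc Φ T a))
              (univ.filter (fun a => Φ.Sub u a ∧ TSrc Φ T a)) := by
            rw [Finset.disjoint_left]
            intro a ha hb
            simp only [mem_filter, mem_univ, true_and] at ha hb
            have hin : InC χ k a := ⟨hmul, u, hu, hb.1⟩
            rcases ha.1 with h | ⟨g, h1, h2, h3⟩
            · exact h.2.2 k hR.1 hin
            · apply InC.disjoint h2 hR _ h3 hin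
              rintro rfl
              simp [hk] at h1
          rw [← Finset.card_union_of_disjoint hdis]
          apply Finset.card_le_card
          intro a ha
          rcases Finset.mem_union.mp ha with ha | ha
          · exact hsub ha
          · simp only [mem_filter, mem_univ, true_and] at ha ⊢
            exact ⟨Or.inr ⟨k, by simp [hk], hR, hmul, u, hu, ha.1⟩, ha.2⟩
      · -- `k` is not reusable: nothing changes
        have e1 : {f | ∃ a : Fin Φ.N, a.1 < n + 1 ∧ Reu χ r a ∧ f = jet P a} =
            {f | ∃ a : Fin Φ.N, a.1 < n ∧ Reu χ r a ∧ f = jet P a} := by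
          ext f
          constructor
          · rintro ⟨a, ha, hra, rfl⟩
            rcases (hlt a).mp ha with h | h
            · exact ⟨a, h, hra, rfl⟩
            · rw [h] at hra; exact absurd hra hR
          · rintro ⟨a, ha, hra, rfl⟩
            exact ⟨a, by omega, hra, rfl⟩
        have e2 : (univ.filter (fun a : Fin Φ.N => ((a.1 < n + 1 ∧ Reu χ r a) ∨ ∃ g : Fin Φ.N,
            g.1 < n + 1 ∧ Reu χ r g ∧ InC χ g a) ∧ TSrc Φ T a)) =
            (univ.filter (fun a : Fin Φ.N => ((a.1 < n ∧ Reu χ r a) ∨ ∃ g : Fin Φ.N,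
            g.1 < n ∧ Reu χ r g ∧ InC χ g a) ∧ TSrc Φ T a)) := by
          ext a
          simp only [mem_filter, mem_univ, true_and]
          apply and_congr_left
          intro _
          constructor
          · rintro (⟨h1, h2⟩ | ⟨g, h1, h2, h3⟩)
            · rcases (hlt a).mp h1 with h | h
              · exact Or.inl ⟨h, h2⟩
              · rw [h] at h2; exact absurd h2 hR
            · rcases (hlt g).mp h1 with h | h
              · exact Or.inr ⟨g, h, h2, h3⟩
              · rw [h] at h2; exact absurd h2 hR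
          · rintro (⟨h1, h2⟩ | ⟨g, h1, h2, h3⟩)
            · exact Or.inl ⟨by omega, h2⟩
            · exact Or.inr ⟨g, by omega, h2, h3⟩
        rw [e1, e2]
        exact ih
  have h := key Φ.N le_rfl
  refine Good.le_of_le ?_ (h.mono ?_)
  · apply Finset.card_le_card
    intro a ha
    simp only [mem_filter, mem_univ, true_and] at ha ⊢
    refine ⟨?_, ha.2⟩
    rcases ha.1 with h | ⟨g, _, h2, h3⟩
    · exact h.2.1
    · obtain ⟨_, u, hu, hau⟩ := h3
      exact Sub.trans hau (Sub.trans (Sub.of_edge hu) h2.1)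
  · rintro f ⟨a, ha, rfl⟩
    exact ⟨a, a.2, ha, rfl⟩

end main

end Circuit

end Pool.Agent.H567.Nec
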