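import Mathlib
import Pool.Agent.H567.Nec.Skew
import Pool.Agent.H567.Nec.Blocks

set_option autoImplicit false
set_option linter.unusedSectionVars false

namespace Pool.Agent.H567.Nec

open Finset

namespace Circuit

universe u v

variable {K : Type u} {σ : Type v}

lemma isGate_of_arg {Φ : Circuit K σ} {b a : Fin Φ.N} {p : Bool} (h : (Φ.node b).arg p = some a) :
    (Φ.node b).IsGate := by
  cases hb : Φ.node b with
  | var i => rw [hb] at h; simp [Node.arg] at h
  | const c => rw [hb] at h; simp [Node.arg] at h
  | add l r => trivial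
  | mul l r => trivial

open Classical in
/-- A circuit with `s` gates has at most `s + 1` sources from which the output can be reached. -/
lemma card_sources_le (Φ : Circuit K σ) (r : Fin Φ.N) :
    (univ.filter (fun a => Φ.Sub r a ∧ ¬ (Φ.node a).IsGate)).card ≤ Φ.size + 1 := by
  have hex : ∀ a : Fin Φ.N, Φ.Sub r a → a ≠ r → ∃ b p, (Φ.node b).arg p = some a ∧ Φ.Sub r b := by
    intro a ha hne
    unfold Sub at ha
    rcases Relation.ReflTransGen.cases_head ha with h | ⟨b, ⟨p, hp⟩, hb⟩
    · exact absurd h hne
    · exact ⟨b, p, hp, hb⟩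
  let f : Fin Φ.N → Fin Φ.N × Bool := fun a =>
    if h : Φ.Sub r a ∧ a ≠ r then
      (Classical.choose (hex a h.1 h.2), Classical.choose (Classical.choose_spec (hex a h.1 h.2)))
    else (a, false)
  have hf : ∀ a, Φ.Sub r a → a ≠ r → (Φ.node (f a).1).arg (f a).2 = some a ∧ Φ.Sub r (f a).1 := by
    intro a h1 h2
    have : f a = (Classical.choose (hex a h1 h2),
        Classical.choose (Classical.choose_spec (hex a h1 h2))) := by
      simp only [f]; rw [dif_pos ⟨h1, h2⟩]
    rw [this]
    exact Classical.choose_spec (Classical.choose_spec (hex a h1 h2))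
  set V := univ.filter (fun a => Φ.Sub r a) with hV
  set G := univ.filter (fun a => Φ.Sub r a ∧ (Φ.node a).IsGate) with hG
  set S := univ.filter (fun a => Φ.Sub r a ∧ ¬ (Φ.node a).IsGate) with hS
  have h1 : (V.erase r).card ≤ (G ×ˢ (univ : Finset Bool)).card := by
    apply Finset.card_le_card_of_injOn f
    · intro a ha
      have ha' : a ∈ V.erase r := ha
      rw [Finset.mem_erase, hV, mem_filter] at ha'
      obtain ⟨h2, h3⟩ := hf a ha'.2.2 ha'.1
      simp only [Finset.coe_product, Set.mem_prod, Finset.mem_coe, hG, mem_filter, mem_univ,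
        true_and, and_true]
      exact ⟨h3, isGate_of_arg h2⟩
    · intro a ha b hb hab
      have ha' : a ∈ V.erase r := ha
      have hb' : b ∈ V.erase r := hb
      rw [Finset.mem_erase, hV, mem_filter] at ha' hb'
      have h2 := (hf a ha'.2.2 ha'.1).1
      have h3 := (hf b hb'.2.2 hb'.1).1
      rw [hab, h3] at h2
      injection h2 with h2
      exact h2.symm
  have h2 : V.card = G.card + S.card := by
    rw [hV, hG, hS, ← Finset.filter_filter, ← Finset.filter_filter]
    exact (Finset.card_filter_add_card_filter_not _).symm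
  have h3 : r ∈ V := by
    rw [hV, mem_filter]; exact ⟨mem_univ _, Sub.refl Φ r⟩
  rw [Finset.card_erase_of_mem h3, Finset.card_product] at h1
  simp only [Finset.card_univ, Fintype.card_bool] at h1
  have h4 : G.card ≤ Φ.size := by
    unfold size
    apply Finset.card_le_card
    intro a ha
    rw [hG, mem_filter] at ha
    rw [mem_filter]
    exact ⟨mem_univ _, ha.2.2⟩
  have h5 : 1 ≤ V.card := Finset.card_pos.mpr ⟨r, h3⟩
  omega

open Classical in
lemma sum_sources_le (Φ : Circuit K σ) (r : Fin Φ.N) {β : Type*} (s : Finset β)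
    (T : β → Finset σ) (hT : (s : Set β).PairwiseDisjoint T) :
    ∑ b ∈ s, (univ.filter (fun a => Φ.Sub r a ∧ TSrc Φ (T b) a)).card ≤ Φ.size + 1 := by
  rw [← Finset.card_biUnion]
  · refine le_trans (Finset.card_le_card ?_) (card_sources_le Φ r)
    intro a ha
    rw [Finset.mem_biUnion] at ha
    obtain ⟨b, _, hb⟩ := ha
    simp only [mem_filter, mem_univ, true_and] at hb ⊢
    refine ⟨hb.1, ?_⟩
    obtain ⟨v, _, hv⟩ := hb.2
    rw [hv]
    exact fun h => h
  · intro b hb b' hb' hne
    simp only [Function.onFun]
    rw [Finset.disjoint_left]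
    intro a ha ha'
    simp only [mem_filter, mem_univ, true_and] at ha ha'
    obtain ⟨v, hv, h1⟩ := ha.2
    obtain ⟨v', hv', h2⟩ := ha'.2
    rw [h1] at h2
    injection h2 with h2
    subst h2
    exact Finset.disjoint_left.mp (hT hb hb' hne) hv hv'

end Circuit

end Pool.Agent.H567.Nec
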