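import Mathlib
import Pool.Agent.H567.Nec.Transfer

set_option autoImplicit false
set_option linter.unusedSectionVars false

namespace Pool.Agent.H567.Nec

open Finset MvPolynomial

universe u

/-- An affine-linear polynomial is its constant term plus a linear form. -/
theorem eq_of_totalDegree_le_one {K : Type u} [Field K] {τ : Type} [Fintype τ] [DecidableEq τ]
    (p : MvPolynomial τ K) (hp : p.totalDegree ≤ 1) :
    p = C (coeff 0 p) + ∑ i, C (coeff (Finsupp.single i 1) p) * X i := by
  ext d
  rw [coeff_add, coeff_sum, coeff_C]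
  simp only [coeff_C_mul, coeff_X]
  by_cases h0 : d = 0
  · subst h0
    rw [if_pos rfl, Finset.sum_eq_zero, add_zero]
    intro i _
    rw [if_neg, mul_zero]
    intro h
    have := DFunLike.congr_fun h i
    simp at this
  · rw [if_neg (fun h => h0 h.symm), zero_add]
    by_cases h1 : ∃ i, d = Finsupp.single i 1
    · obtain ⟨i, rfl⟩ := h1
      rw [Finset.sum_eq_single i]
      · simp
      · intro j _ hj
        rw [if_neg, mul_zero]
        intro h
        exact hj (Finsupp.single_left_injective one_ne_zero h)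
      · simp
    · rw [Finset.sum_eq_zero]
      · rw [← notMem_support_iff]
        intro hd
        have h2 : (d.sum fun _ e => e) ≤ 1 := le_trans (le_totalDegree hd) hp
        have hsum : (d.sum fun _ e => e) = ∑ i, d i := by
          rw [Finsupp.sum_fintype]
          intro i; rfl
        rw [hsum] at h2
        obtain ⟨i, hi⟩ : ∃ i, d i ≠ 0 := by
          by_contra hcon
          push Not at hcon
          exact h0 (Finsupp.ext hcon)
        apply h1
        refine ⟨i, ?_⟩
        have h3 : d i ≤ ∑ j, d j :=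
          Finset.single_le_sum (fun j _ => Nat.zero_le _) (Finset.mem_univ i)
        ext j
        by_cases hij : i = j
        · subst hij
          rw [Finsupp.single_eq_same]; omega
        · rw [Finsupp.single_eq_of_ne (Ne.symm hij)]
          have h4 : d i + d j ≤ ∑ l, d l := by
            rw [← Finset.sum_pair hij]
            exact Finset.sum_le_sum_of_subset (Finset.subset_univ _)
          omega
      · intro i _
        rw [if_neg (fun h => h1 ⟨i, h.symm⟩), mul_zero]

/-- Rank factorisation. -/
theorem exists_rank_factorization {K : Type u} [Field K] {n : ℕ} (A : Matrix (Fin n) (Fin n) K) :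
    ∃ (P : Matrix (Fin n) (Fin A.rank) K) (Q : Matrix (Fin A.rank) (Fin n) K), A = P * Q := by
  let V := LinearMap.range A.mulVecLin
  let b : Module.Basis (Fin A.rank) K V := Module.finBasisOfFinrankEq K V rfl
  refine ⟨Matrix.of fun i k => (b k : Fin n → K) i,
    Matrix.of fun k j => b.repr ⟨A.mulVecLin (Pi.single j 1), LinearMap.mem_range_self _ _⟩ k, ?_⟩
  ext i j
  have h := b.sum_repr ⟨A.mulVecLin (Pi.single j 1), LinearMap.mem_range_self _ _⟩
  have h2 := congrArg (fun v : V => (v : Fin n → K) i) h
  simp only [Submodule.coe_sum, Submodule.coe_smul, Finset.sum_apply, Pi.smul_apply,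
    smul_eq_mul] at h2
  rw [Matrix.mul_apply]
  simp only [Matrix.of_apply]
  have h3 : (A.mulVecLin (Pi.single j 1)) i = A i j := by
    simp
  rw [h3] at h2
  rw [← h2]
  apply Finset.sum_congr rfl
  intro k _
  ring

/-- The subring of elements of the trivial square zero extension whose infinitesimal part lies in a
given space. -/
def sndSubring {K : Type u} [Field K] {ω : Type*} (D : Submodule K (ω → K)) :
    Subring (TrivSqZeroExt K (ω → K)) where
  carrier := {r | r.snd ∈ D}
  mul_mem' := by
    intro a b ha hb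
    change (a * b).snd ∈ D
    rw [TrivSqZeroExt.snd_mul, op_smul_eq_smul]
    exact D.add_mem (D.smul_mem _ hb) (D.smul_mem _ ha)
  one_mem' := by
    change (1 : TrivSqZeroExt K (ω → K)).snd ∈ D
    rw [TrivSqZeroExt.snd_one]; exact D.zero_mem
  add_mem' := by
    intro a b ha hb
    change (a + b).snd ∈ D
    rw [TrivSqZeroExt.snd_add]; exact D.add_mem ha hb
  zero_mem' := by
    change (0 : TrivSqZeroExt K (ω → K)).snd ∈ D
    rw [TrivSqZeroExt.snd_zero]; exact D.zero_mem
  neg_mem' := by
    intro a ha
    change (-a).snd ∈ D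
    rw [TrivSqZeroExt.snd_neg]; exact D.neg_mem ha

lemma mem_sndSubring {K : Type u} [Field K] {ω : Type*} (D : Submodule K (ω → K))
    (r : TrivSqZeroExt K (ω → K)) : r ∈ sndSubring D ↔ r.snd ∈ D := Iff.rfl

lemma det_mem_subring {R : Type*} [CommRing R] (S : Subring R) {κ : Type*} [Fintype κ]
    [DecidableEq κ] (M : Matrix κ κ R) (hM : ∀ i j, M i j ∈ S) : M.det ∈ S := by
  rw [Matrix.det_apply]
  apply S.sum_mem
  intro σ _
  rw [Units.smul_def]
  apply S.zsmul_mem
  apply S.prod_mem
  intro i _
  exact hM _ _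

/-- A determinant of affine-linear forms has jets of small rank along a set of variables whose
coefficient matrices have small ranks. -/
theorem det_exists_submodule {K : Type u} [Field K] {n t : ℕ} {σ : Type} [Fintype σ]
    [DecidableEq σ] {ω Ξ : Type*} [Finite ω] (A : Matrix (Fin n) (Fin n) (MvPolynomial σ K))
    (hA : ∀ i j, (A i j).totalDegree ≤ 1) (v : Fin t → σ) (hv : Function.Injective v)
    (P : Ξ → σ → TrivSqZeroExt K (ω → K)) (hT : ∀ s ξ, (P ξ (v s)).snd = 0)
    (hc : ∀ w, (∀ s, w ≠ v s) → ∀ ξ ξ', P ξ w = P ξ' w)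
    (ξ₀ : Ξ) (hξ₀ : (aeval (P ξ₀) A.det).fst ≠ 0) :
    ∃ D : Submodule K (ω → K), Module.finrank K D ≤
      (∑ s, (Matrix.of fun i j => coeff (Finsupp.single (v s) 1) (A i j)).rank) ^ 2 + 1 ∧
      ∀ ξ, (aeval (P ξ) A.det).snd ∈ D := by
  classical
  let Av : Fin t → Matrix (Fin n) (Fin n) K := fun s =>
    Matrix.of fun i j => coeff (Finsupp.single (v s) 1) (A i j)
  choose U V hUV using fun s => exists_rank_factorization (Av s)
  let κ := Σ s : Fin t, Fin (Av s).rank
  let U' : Matrix (Fin n) κ (TrivSqZeroExt K (ω → K)) := Matrix.of fun i k => TrivSqZeroExt.inl (U k.1 i k.2)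
  let V' : Matrix κ (Fin n) (TrivSqZeroExt K (ω → K)) := Matrix.of fun k j => TrivSqZeroExt.inl (V k.1 k.2 j)
  let B : Ξ → Matrix (Fin n) (Fin n) (TrivSqZeroExt K (ω → K)) := fun ξ => (aeval (P ξ)).toRingHom.mapMatrix A
  let δ : Ξ → κ → TrivSqZeroExt K (ω → K) := fun ξ k => TrivSqZeroExt.inl ((P ξ (v k.1)).fst - (P ξ₀ (v k.1)).fst)
  have hdet : ∀ ξ, aeval (P ξ) A.det = (B ξ).det := by
    intro ξ
    exact RingHom.map_det (aeval (P ξ)).toRingHom A
  have hB : ∀ ξ, B ξ = B ξ₀ + U' * (Matrix.diagonal (δ ξ) * V') := by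
    intro ξ
    ext1 i j
    have e1 : ∀ ξ, B ξ i j = algebraMap K (TrivSqZeroExt K (ω → K)) (coeff 0 (A i j)) +
        ∑ w, algebraMap K (TrivSqZeroExt K (ω → K)) (coeff (Finsupp.single w 1) (A i j)) * P ξ w := by
      intro ξ
      change aeval (P ξ) (A i j) = _
      conv_lhs => rw [eq_of_totalDegree_le_one (A i j) (hA i j)]
      rw [map_add, map_sum]
      simp only [map_mul, aeval_X, aeval_C]
    rw [Matrix.add_apply, e1 ξ, e1 ξ₀, add_assoc]
    congr 1
    rw [← sub_eq_iff_eq_add']
    rw [← Finset.sum_sub_distrib]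
    rw [← Finset.sum_subset (Finset.subset_univ (univ.image v))]
    · rw [Finset.sum_image (fun a _ b _ h => hv h)]
      rw [Matrix.mul_apply]
      have e2 : ∀ k : κ, U' i k * (Matrix.diagonal (δ ξ) * V') k j
          = TrivSqZeroExt.inl (((P ξ (v k.1)).fst - (P ξ₀ (v k.1)).fst) *
            (U k.1 i k.2 * V k.1 k.2 j)) := by
        intro k
        rw [Matrix.diagonal_mul]
        simp only [U', V', δ, Matrix.of_apply]
        rw [← TrivSqZeroExt.inl_mul, ← TrivSqZeroExt.inl_mul]
        congr 1
        ring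
      rw [Finset.sum_congr rfl (fun k _ => e2 k)]
      rw [Fintype.sum_sigma]
      apply Finset.sum_congr rfl
      intro s _
      simp only
      have e5 : ∑ x, (TrivSqZeroExt.inl (((P ξ (v s)).fst - (P ξ₀ (v s)).fst) *
          (U s i x * V s x j)) : TrivSqZeroExt K (ω → K))
          = TrivSqZeroExt.inl (∑ x, ((P ξ (v s)).fst - (P ξ₀ (v s)).fst) *
          (U s i x * V s x j)) := by
        rw [TrivSqZeroExt.inl_sum]
      rw [e5, ← Finset.mul_sum]
      have e3 : ∑ k, U s i k * V s k j = coeff (Finsupp.single (v s) 1) (A i j) := by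
        have := congrFun (congrFun (hUV s) i) j
        rw [Matrix.mul_apply] at this
        rw [← this]; rfl
      rw [e3]
      have e4 : ∀ ξ, P ξ (v s) = TrivSqZeroExt.inl (P ξ (v s)).fst := by
        intro ξ
        ext
        · simp
        · rw [hT s ξ]; simp
      rw [e4 ξ, e4 ξ₀, ← mul_sub]
      simp only [TrivSqZeroExt.fst_inl]
      rw [← TrivSqZeroExt.inl_sub]
      change TrivSqZeroExt.inl _ * TrivSqZeroExt.inl _ = TrivSqZeroExt.inl _
      rw [← TrivSqZeroExt.inl_mul, mul_comm]
      rfl
    · intro w _ hw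
      rw [hc w (fun s hs => hw (Finset.mem_image.mpr ⟨s, Finset.mem_univ _, hs.symm⟩)) ξ ξ₀,
        sub_self]
  have hunit : IsUnit (B ξ₀).det := by
    rw [TrivSqZeroExt.isUnit_iff_isUnit_fst, ← hdet]
    exact isUnit_iff_ne_zero.mpr hξ₀
  let G : Matrix κ κ (TrivSqZeroExt K (ω → K)) := V' * (B ξ₀)⁻¹ * U'
  let S : Finset (ω → K) := insert (B ξ₀).det.snd ((univ : Finset (κ × κ)).image
    (fun p => (G p.1 p.2).snd))
  let D : Submodule K (ω → K) := Submodule.span K (S : Set (ω → K))
  refine ⟨D, ?_, ?_⟩
  · refine le_trans (finrank_span_finset_le_card S) ?_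
    refine le_trans (Finset.card_insert_le _ _) ?_
    have h1 : ((univ : Finset (κ × κ)).image (fun p => (G p.1 p.2).snd)).card
        ≤ Fintype.card (κ × κ) := Finset.card_image_le
    have h2 : Fintype.card κ = ∑ s, (Av s).rank := by
      simp [κ]
    rw [Fintype.card_prod, h2, ← pow_two] at h1
    exact Nat.add_le_add_right h1 1
  · intro ξ
    have hGD : ∀ k l, G k l ∈ sndSubring D := by
      intro k l
      rw [mem_sndSubring]
      apply Submodule.subset_span
      apply Finset.mem_coe.mpr
      apply Finset.mem_insert_of_mem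
      exact Finset.mem_image.mpr ⟨(k, l), Finset.mem_univ _, rfl⟩
    have h1 : aeval (P ξ) A.det = (B ξ₀).det * (1 + Matrix.diagonal (δ ξ) * G).det := by
      rw [hdet, hB ξ, Matrix.det_add_mul _ _ hunit]
      congr 3
      simp only [G, Matrix.mul_assoc]
    rw [h1, ← mem_sndSubring]
    apply Subring.mul_mem
    · rw [mem_sndSubring]
      apply Submodule.subset_span
      exact Finset.mem_coe.mpr (Finset.mem_insert_self _ _)
    · apply det_mem_subring
      intro k l
      rw [Matrix.add_apply, Matrix.diagonal_mul]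
      apply Subring.add_mem
      · rw [Matrix.one_apply]
        split_ifs
        · exact Subring.one_mem _
        · exact Subring.zero_mem _
      · apply Subring.mul_mem _ _ (hGD k l)
        rw [mem_sndSubring]
        simp [δ, D.zero_mem]

end Pool.Agent.H567.Nec
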