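import Mathlib
import Pool.Agent.H567.Nec.Transfer

set_option autoImplicit false
set_option linter.unusedSectionVars false

namespace Pool.Agent.H567.Nec

open Finset Equiv

section

variable {K : Type*} [Field K] {τ₁ τ₂ ν : Type*} [Fintype τ₁] [DecidableEq τ₁] [Fintype τ₂]
  [DecidableEq τ₂] [Fintype ν] [DecidableEq ν]

lemma Mx_diag (u : τ₁ → ν → K) (v : τ₂ → ν → K) (r : Ix τ₁ τ₂ ν) :
    Mx (wtx u (fun _ => 1)) (wtx v (fun _ => 1)) r r = 1 := by
  rcases r with s | (s | i)
  · simp only [Mx, fa, fb, mul_one]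
    rw [Finset.sum_eq_single none]
    · simp [ps1, wtx]
    · intro o _ ho
      rw [if_neg]
      intro h
      cases o with
      | none => exact ho rfl
      | some c => simp [ps1] at h
    · simp
  · simp only [Mx, fa, fb, one_mul]
    rw [Finset.sum_eq_single none]
    · simp [ps2, wtx]
    · intro o _ ho
      rw [if_neg]
      intro h
      cases o with
      | none => exact ho rfl
      | some c => simp [ps2] at h
    · simp
  · simp [Mx, fa, fb]

lemma Mx_nat (u : τ₁ → ν → K) (v : τ₂ → ν → K) (hu : ∀ s j, ∃ n : ℕ, u s j = n)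
    (hv : ∀ s j, ∃ n : ℕ, v s j = n) (r c : Ix τ₁ τ₂ ν) :
    ∃ n : ℕ, Mx (wtx u (fun _ => 1)) (wtx v (fun _ => 1)) r c = n := by
  have hwu : ∀ s o, ∃ n : ℕ, wtx u (fun _ => 1) s o = n := by
    intro s o
    cases o with
    | none => exact ⟨1, by simp [wtx]⟩
    | some j => exact hu s j
  have hwv : ∀ s o, ∃ n : ℕ, wtx v (fun _ => 1) s o = n := by
    intro s o
    cases o with
    | none => exact ⟨1, by simp [wtx]⟩
    | some j => exact hv s j
  have h1 : ∃ n : ℕ, fa (wtx u (fun _ => 1)) r c = n := by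
    rcases r with s | r
    · choose n hn using hwu s
      refine ⟨∑ o : Option ν, if ps1 s o = c then n o else 0, ?_⟩
      simp only [fa]
      rw [Nat.cast_sum]
      apply Finset.sum_congr rfl
      intro o _
      split_ifs
      · exact hn o
      · simp
    · exact ⟨1, by simp [fa]⟩
  have h2 : ∃ n : ℕ, fb (wtx v (fun _ => 1)) r c = n := by
    rcases c with s | (s | j)
    · exact ⟨1, by simp [fb]⟩
    · choose n hn using hwv s
      refine ⟨∑ o : Option ν, if ps2 s o = r then n o else 0, ?_⟩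
      simp only [fb]
      rw [Nat.cast_sum]
      apply Finset.sum_congr rfl
      intro o _
      split_ifs
      · exact hn o
      · simp
    · exact ⟨1, by simp [fb]⟩
  obtain ⟨a, ha⟩ := h1
  obtain ⟨b, hb⟩ := h2
  exact ⟨a * b, by rw [Mx, ha, hb]; push_cast; ring⟩

lemma fst_perm_Mt (wa : τ₁ → Option ν → K) (wb : τ₂ → Option ν → K) :
    (Mt wa wb).permanent.fst = (Mx wa wb).permanent := by
  unfold Matrix.permanent
  rw [TrivSqZeroExt.fst_sum]
  apply Finset.sum_congr rfl
  intro σ _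
  have := map_prod (TrivSqZeroExt.fstHom K K (ν × ν → K)) (fun c => Mt wa wb (σ c) c) univ
  simp only [TrivSqZeroExt.fstHom_apply] at this
  rw [this]
  apply Finset.prod_congr rfl
  intro c _
  simp [Mt]

lemma perm_Mx_ne_zero [CharZero K] (u : τ₁ → ν → K) (v : τ₂ → ν → K)
    (hu : ∀ s j, ∃ n : ℕ, u s j = n) (hv : ∀ s j, ∃ n : ℕ, v s j = n) :
    (Mx (wtx u (fun _ => 1)) (wtx v (fun _ => 1))).permanent ≠ 0 := by
  choose f hf using Mx_nat u v hu hv
  have h1 : ∀ r, f r r = 1 := by
    intro r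
    have := hf r r
    rw [Mx_diag] at this
    exact_mod_cast this.symm
  have h2 : (Mx (wtx u (fun _ => 1)) (wtx v (fun _ => 1))).permanent
      = ((∑ σ : Perm (Ix τ₁ τ₂ ν), ∏ c, f (σ c) c : ℕ) : K) := by
    unfold Matrix.permanent
    push_cast
    apply Finset.sum_congr rfl
    intro σ _
    apply Finset.prod_congr rfl
    intro c _
    exact hf _ _
  rw [h2]
  have h3 : 0 < ∑ σ : Perm (Ix τ₁ τ₂ ν), ∏ c, f (σ c) c := by
    apply Finset.sum_pos'
    · intro σ _; exact Nat.zero_le _
    · refine ⟨1, Finset.mem_univ _, ?_⟩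
      simp [h1]
  exact_mod_cast h3.ne'

end

/-- The family of jets at which the permanent is evaluated, with a base point at which the
permanent does not vanish. -/
theorem exists_jets' (K : Type*) [Field K] [CharZero K] (m ℓ n' : ℕ) (hm : 2 * ℓ + n' = m)
    (hn : n' ≤ 2 ^ ℓ) (r c : Fin (2 * ℓ) → Fin m) (hr : Function.Injective r)
    (hc : Function.Injective c) :
    ∃ (Ξ : Type) (P : (Ξ → K) → (Fin m × Fin m) → TrivSqZeroExt K (Fin n' × Fin n' → K)),
      (∀ ξ s, (P ξ (r s, c s)).snd = 0) ∧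
      (∀ ξ ξ' v, (∀ s, v ≠ (r s, c s)) → P ξ v = P ξ' v) ∧
      (∀ A : Submodule K (Fin n' × Fin n' → K),
        (∀ ξ, (MvPolynomial.aeval (P ξ) (gperm K m)).snd ∈ A) → A = ⊤) ∧
      ∃ ξ, (MvPolynomial.aeval (P ξ) (gperm K m)).fst ≠ 0 := by
  classical
  -- index types
  let eF : Fin ℓ ⊕ Fin ℓ ≃ Fin (2 * ℓ) := finSumFinEquiv.trans (finCongr (by ring))
  obtain ⟨er, her⟩ := exists_equiv_extend (ν := Fin n') (r ∘ eF) (hr.comp eF.injective)
    (by simp; omega)
  obtain ⟨ec, hec⟩ := exists_equiv_extend (ν := Fin n') (c ∘ eF) (hc.comp eF.injective)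
    (by simp; omega)
  let Er : Ix (Fin ℓ) (Fin ℓ) (Fin n') ≃ Fin m := (Equiv.sumAssoc _ _ _).symm.trans er
  let Ec : Ix (Fin ℓ) (Fin ℓ) (Fin n') ≃ Fin m := (Equiv.sumAssoc _ _ _).symm.trans ec
  have hEr : ∀ s : Fin ℓ ⊕ Fin ℓ, Er (dg s) = r (eF s) := by
    intro s
    have := her s
    rcases s with s | s <;> exact this
  have hEc : ∀ s : Fin ℓ ⊕ Fin ℓ, Ec (dg s) = c (eF s) := by
    intro s
    have := hec s
    rcases s with s | s <;> exact this
  -- code
  obtain ⟨code⟩ : Nonempty (Fin n' ↪ (Fin ℓ → Bool)) := by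
    apply Function.Embedding.nonempty_of_card_le
    simpa using hn
  let u : Fin ℓ → Fin n' → K := fun s j => if code j s then (1 : K) else 0
  have hperm : ∀ x y : Fin ℓ → K, MvPolynomial.aeval (fun v : Fin m × Fin m =>
      Mt (wtx u x) (wtx u y) (Er.symm v.1) (Ec.symm v.2)) (gperm K m)
      = (Mt (wtx u x) (wtx u y)).permanent := by
    intro x y
    unfold gperm Matrix.permanent
    rw [map_sum]
    simp only [map_prod, Matrix.of_apply, MvPolynomial.aeval_X]
    let E : Perm (Ix (Fin ℓ) (Fin ℓ) (Fin n')) ≃ Perm (Fin m) :=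
      { toFun := fun σ => (Ec.symm.trans σ).trans Er
        invFun := fun π => (Ec.trans π).trans Er.symm
        left_inv := by intro σ; ext a; simp
        right_inv := by intro π; ext a; simp }
    rw [← Equiv.sum_comp E]
    apply Finset.sum_congr rfl
    intro σ _
    rw [← Equiv.prod_comp Ec]
    apply Finset.prod_congr rfl
    intro a _
    simp [E, u]
  refine ⟨Fin ℓ ⊕ Fin ℓ, fun ξ v => Mt (wtx u (fun s => ξ (Sum.inl s))) (wtx u (fun s => ξ (Sum.inr s)))
    (Er.symm v.1) (Ec.symm v.2), ?_, ?_, ?_, ?_⟩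
  · intro ξ s
    obtain ⟨s', rfl⟩ := eF.surjective s
    simp only
    rw [← hEr, ← hEc, Equiv.symm_apply_apply, Equiv.symm_apply_apply]
    exact Mt_dg _ _ s'
  · intro ξ ξ' v hv
    apply Mt_indep
    rintro s ⟨h1, h2⟩
    apply hv (eF s)
    rw [Equiv.symm_apply_eq, hEr] at h1
    rw [Equiv.symm_apply_eq, hEc] at h2
    exact Prod.ext h1 h2
  · intro A hA
    apply span_perm (K := K) (ν := Fin n') (fun j => code j) code.injective (fun j => code j)
      code.injective
    intro x y
    have h := hA (Sum.elim x y)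
    simp only [Sum.elim_inl, Sum.elim_inr] at h
    rw [hperm] at h
    exact h
  · refine ⟨fun _ => 1, ?_⟩
    rw [hperm, fst_perm_Mt]
    apply perm_Mx_ne_zero
    · intro s j
      refine ⟨if code j s then 1 else 0, ?_⟩
      simp only [u]
      split_ifs <;> simp
    · intro s j
      refine ⟨if code j s then 1 else 0, ?_⟩
      simp only [u]
      split_ifs <;> simp

end Pool.Agent.H567.Nec
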